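import Pool.Agent.Helper43.GH.TCDefs
import Pool.Agent.Helper81.LT.Defs

/-!
Project BL2 (MP_b8862a_ag): definitions for the final statement.
-/

set_option linter.unusedSectionVars false

open Matrix

namespace MH

/-- The numbers `v` are not the coefficients of a product `f g` of Laurent polynomials with non-negative integral coefficients
such that `g` has at least two terms and `g 1` divides the numbers `u`. -/
def NoF (u v : ℤ → ℕ) : Prop :=
  ∀ f g : ℤ →₀ ℕ, (∀ p : ℤ, v p = f.sum fun i x => x * g (p - i)) → (∀ p, (g.sum fun _ x => x) ∣ u p) →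
    g.support.card ≤ 1

/-- The same for palindromic `f` and `g`. -/
def NoFS (w : ℤ) (u v : ℤ → ℕ) : Prop :=
  ∀ (a : ℤ) (f g : ℤ →₀ ℕ), (∀ j, f (a - j) = f j) → (∀ j, g (w - a - j) = g j) →
    (∀ p : ℤ, v p = f.sum fun i x => x * g (p - i)) → (∀ p, (g.sum fun _ x => x) ∣ u p) → g.support.card ≤ 1

/-- The numbers `u` are not the coefficients of a product of two Laurent polynomials with non-negative integral coefficients
and at least two terms each. -/
def IndB (u : ℤ → ℕ) : Prop :=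
  ∀ f g : ℤ →₀ ℕ, (∀ p : ℤ, u p = f.sum fun i x => x * g (p - i)) → f.support.card ≤ 1 ∨ g.support.card ≤ 1

/-- The same for palindromic `f` and `g`. -/
def IndBS (w : ℤ) (u : ℤ → ℕ) : Prop :=
  ∀ (a : ℤ) (f g : ℤ →₀ ℕ), (∀ j, f (a - j) = f j) → (∀ j, g (w - a - j) = g j) →
    (∀ p : ℤ, u p = f.sum fun i x => x * g (p - i)) → f.support.card ≤ 1 ∨ g.support.card ≤ 1

/-- The numbers `u p` are one on an arithmetic progression of `r` integers and zero elsewhere. -/
def ProgB (r : ℕ) (u : ℤ → ℕ) : Prop :=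
  ∃ p₀ d : ℤ, ∀ p, u p ≤ 1 ∧ (0 < u p ↔ ∃ i : ℕ, i < r ∧ p = p₀ + i * d)

variable {n : Type*} [Fintype n] [DecidableEq n]

/-- The block is self-dual: it carries an invariant form. -/
def DualB (Q : Matrix n n ℚ) (P : ℤ → Matrix n n ℂ) (e : Matrix n n ℂ) : Prop :=
  ∃ x ∈ EC P, eᵀ * (toC Q * x) * e ≠ 0

/-- The Hodge numbers of no conjugate of the block `e` are those of a product `f g` such that `g` has at least two terms and
`g 1` divides the Hodge numbers of the conjugate by `σ`; if `e` is self-dual, `f` and `g` may be taken palindromic. -/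
def StarB (w : ℤ) (Q : Matrix n n ℚ) (P : ℤ → Matrix n n ℂ) (e : Matrix n n ℂ) (σ : ℂ ≃+* ℂ) : Prop :=
  (∀ τ : ℂ ≃+* ℂ, NoF (fun p => (e.map σ * P p).rank) (fun p => (e.map τ * P p).rank)) ∨
    DualB Q P e ∧ ∀ τ : ℂ ≃+* ℂ, NoFS w (fun p => (e.map σ * P p).rank) (fun p => (e.map τ * P p).rank)

/-- The block `e` is of orthogonal type and rank at least nine, and the conjugate block `f` has the Hodge numbers `t, h, t` in
the degrees `m + k`, `m`, `m - k`, `w = 2 m`, and no other ones, where `h ≠ 0` and `(t, h)` is not in the list `LT.Exc`. -/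
def ThreeC (w : ℤ) (Q : Matrix n n ℚ) (P : ℤ → Matrix n n ℂ) (e f : Matrix n n ℂ) : Prop :=
  9 ≤ e.rank ∧ OrthB Q P e ∧ ∃ m k : ℤ, w = 2 * m ∧ (∀ p, p ≠ m + k → p ≠ m → p ≠ m - k → f * P p = 0) ∧
    f * P m ≠ 0 ∧ ¬ LT.Exc (f * P (m + k)).rank (f * P m).rank

/-- The condition on the block `e` and the conjugate by `σ` outside thin sets of ranks: `e` is self-dual, its rank is not in
`E` and the Hodge numbers of the conjugate are not those of a product of palindromic polynomials, or its rank is not in `E'`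
and they are not those of a product of polynomials; and they are not one on an arithmetic progression and zero elsewhere. -/
def RankB (E E' : Set ℕ) (w : ℤ) (Q : Matrix n n ℚ) (P : ℤ → Matrix n n ℂ) (e : Matrix n n ℂ) (σ : ℂ ≃+* ℂ) : Prop :=
  ((DualB Q P e ∧ e.rank ∉ E ∧ IndBS w (fun p => (e.map σ * P p).rank)) ∨
    (e.rank ∉ E' ∧ IndB (fun p => (e.map σ * P p).rank))) ∧ ¬ ProgB e.rank (fun p => (e.map σ * P p).rank)

/-- The condition on a block `e` of rank `r`: either the weight is two, `V = V^{2,0} + V^{1,1} + V^{0,2}`, and `9 ≤ r`,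
`(dim V^{2,0} + 1) ^ 2 ≤ r`, or `5 ≤ r`, `dim V^{2,0} ≤ 2` and `e` is not self-dual; or some conjugate satisfies `StarB` and one
of `ThreeC`, `RankB` and `DomB`. -/
def OkB (E E' : Set ℕ) (w : ℤ) (Q : Matrix n n ℚ) (S : Finset ℤ) (P : ℤ → Matrix n n ℂ) (e : Matrix n n ℂ) : Prop :=
  (w = 2 ∧ (∀ p, p ≠ 0 → p ≠ 1 → p ≠ 2 → P p = 0) ∧
      (9 ≤ e.rank ∧ ((P 2).rank + 1) ^ 2 ≤ e.rank ∨ 5 ≤ e.rank ∧ (P 2).rank ≤ 2 ∧ ¬ DualB Q P e)) ∨
    ∃ σ : ℂ ≃+* ℂ, StarB w Q P e σ ∧ (ThreeC w Q P e (e.map σ) ∨ RankB E E' w Q P e σ ∨ DomB w Q S P (e.map σ))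

/-- The `ℓ`-adic data: `Γ` consists of similitudes of `Q`; a subgroup of finite index preserves all the lines of matrices that
are stable under the Mumford-Tate group; for every automorphism `σ` there is a Hodge-Tate decomposition with the numbers of
the conjugate by `σ` of the Hodge decomposition; and a tensor of weight zero for all these Hodge-Tate decompositions is fixed
by a subgroup of finite index (the group is generated by its Hodge cocharacters: a property of Galois groups, if the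
endomorphisms of `V` are algebraic, Serre, Pink). -/
structure IsGalG (w : ℤ) (Q : Matrix n n ℚ) (S : Finset ℤ) (P : ℤ → Matrix n n ℂ) (Γ : Subgroup (GL n ℂ)) : Prop where
  sim : ∀ g ∈ Γ, ∃ c : ℂ, (g : Matrix n n ℂ)ᵀ * toC Q * (g : Matrix n n ℂ) = c • toC Q
  semi : ∃ Γ' : Subgroup (GL n ℂ), Γ' ≤ Γ ∧ Γ'.relIndex Γ ≠ 0 ∧ ∀ g ∈ Γ', ∀ T : Matrix n n ℂ, SI S P T →
    ∃ c : ℂ, (g : Matrix n n ℂ) * T = c • (T * (g : Matrix n n ℂ))
  conj : ∀ σ : ℂ ≃+* ℂ, ∃ (S' : Finset ℤ) (R : ℤ → Matrix n n ℂ), IsHTs w Q S P Γ σ S' R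
  gen : ∀ (a b : ℕ) (t : (Fin a ⊕ Fin b → n) → ℂ),
    (∀ (σ : ℂ ≃+* ℂ) (S' : Finset ℤ) (R : ℤ → Matrix n n ℂ), IsHTs w Q S P Γ σ S' R → ∀ z : ℂ, z ≠ 0 →
      actF (slot a b (∑ p ∈ S', z ^ p • R p) (∑ p ∈ S', z⁻¹ ^ p • R p)) t = t) → IsTateTensor Γ a b t

end MH
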