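import Pool.Agent.Helper43.BL2.Dch
import Pool.Agent.Helper43.BL2.Defs
import Pool.Agent.Helper14.WH.Irr
import Pool.Agent.Helper43.BL.Fin
import Pool.Agent.Helper14.AT.Fin

/-!
Project BL2 (MP_b8862a_ag): blocks of a Galois group (or of the Mumford-Tate group) with a family of Hodge-Tate decompositions
whose commutant is the endomorphism algebra.
-/

set_option linter.unusedSectionVars false
set_option linter.unusedVariables false

open Matrix Module GH OW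

namespace MH

variable {n : Type*} [Fintype n] [DecidableEq n]
variable {w : ℤ} {Q : Matrix n n ℚ} {S : Finset ℤ} {P : ℤ → Matrix n n ℂ} {Γ : Subgroup (GL n ℂ)}

/-- a family of Hodge-Tate decompositions whose commutant is the endomorphism algebra -/
structure IsHF (w : ℤ) (Q : Matrix n n ℚ) (P : ℤ → Matrix n n ℂ) (Γ : Subgroup (GL n ℂ)) {ι : Type*} (T : ι → Finset ℤ)
    (R : ι → ℤ → Matrix n n ℂ) : Prop where
  ht : ∀ i, IsHTw w Q (T i) Γ (R i)
  com : ∀ X : Matrix n n ℂ, (∀ i, X * hR (T i) (R i) = hR (T i) (R i) * X) → X ∈ EC P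

/-- the part of trace zero -/
def T0 {k : Type*} [Fintype k] [DecidableEq k] (L : Submodule ℂ (Matrix k k ℂ)) : Submodule ℂ (Matrix k k ℂ) :=
  L ⊓ LinearMap.ker (Matrix.traceLinearMap k ℂ ℂ)

theorem mem_T0 {k : Type*} [Fintype k] [DecidableEq k] {L : Submodule ℂ (Matrix k k ℂ)} {y : Matrix k k ℂ} :
    y ∈ T0 L ↔ y ∈ L ∧ y.trace = 0 := by
  rw [T0, Submodule.mem_inf, LinearMap.mem_ker, Matrix.traceLinearMap_apply]

theorem Dch.smul43 {k : Type*} [Fintype k] [DecidableEq k] {L : Submodule ℂ (Matrix k k ℂ)} {h : Matrix k k ℂ} {c : ℂ}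
    (hc : c ≠ 0) (H : Dch L (c • h)) : Dch L h := by
  intro K hK hid
  rcases H K hK hid with h1 | h1
  · left
    have h2 := K.smul_mem c⁻¹ h1
    rwa [smul_smul, inv_mul_cancel₀ hc, one_smul] at h2
  · right
    intro y hy
    have h2 := h1 y hy
    rw [smul_mul_assoc, mul_smul_comm] at h2
    exact smul_right_injective _ hc h2

theorem Nfc.smul43 {k : Type*} [Fintype k] [DecidableEq k] {L : Submodule ℂ (Matrix k k ℂ)} {h0 h : Matrix k k ℂ} {c : ℂ}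
    (hc : c ≠ 0) (H : Nfc L (c • h0) (c • h)) : Nfc L h0 h := by
  intro K hK hid h0K T hT
  have h2 := H K hK hid (K.smul_mem c h0K) T hT
  rw [smul_mul_assoc, mul_smul_comm] at h2
  exact smul_right_injective _ hc h2

section cmp

variable {r : ℕ} {W : Matrix n (Fin r) ℂ} {V : Matrix (Fin r) n ℂ} {e : Matrix n n ℂ}
variable {ι : Type*} {T : ι → Finset ℤ} {R : ι → ℤ → Matrix n n ℂ}

/-- the commutant on a block -/
theorem IsHF.com_blk (F : IsHF w Q P Γ T R) (G : IsGalU w Q S P Γ) (he : IsBlk P e) (hVW : V * W = 1)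
    (hWV : W * V = e) {Z : Matrix (Fin r) (Fin r) ℂ}
    (hZ : ∀ i, Z * (V * hR (T i) (R i) * W) = V * hR (T i) (R i) * W * Z) : ∃ c : ℂ, Z = c • (1 : Matrix (Fin r) (Fin r) ℂ) := by
  have hVe : V * e = V := by rw [← hWV, ← Matrix.mul_assoc, hVW, Matrix.one_mul]
  have heW : e * W = W := by rw [← hWV, Matrix.mul_assoc, hVW, Matrix.mul_one]
  have h1 : W * Z * V ∈ EC P := by
    refine F.com _ fun i => ?_
    obtain ⟨h, hh⟩ : ∃ h, h = hR (T i) (R i) := ⟨_, rfl⟩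
    have hc : h * e = e * h := by
      rw [hh]
      exact G.LG_com (F.ht i).hR_mem he.mem
    have hz := hZ i
    rw [← hh] at hz ⊢
    calc W * Z * V * h = W * Z * (V * e) * h := by rw [hVe]
      _ = W * (Z * (V * h * W)) * V := by
        rw [Matrix.mul_assoc (W * Z) (V * e) h, Matrix.mul_assoc V e h, ← hc, ← hWV]
        simp only [Matrix.mul_assoc]
      _ = (W * V) * h * W * Z * V := by rw [hz]; simp only [Matrix.mul_assoc]
      _ = h * (W * Z * V) := by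
        rw [hWV, ← hc, Matrix.mul_assoc h e W, heW]
        simp only [Matrix.mul_assoc]
  obtain ⟨c, hc⟩ := he.min _ h1
  refine ⟨c, ?_⟩
  have h2 : V * (e * (W * Z * V) * e) * W = Z := by
    calc V * (e * (W * Z * V) * e) * W = (V * e) * W * Z * V * (e * W) := by simp only [Matrix.mul_assoc]
      _ = (V * W) * Z * (V * W) := by rw [hVe, heW]; simp only [Matrix.mul_assoc]
      _ = Z := by rw [hVW, Matrix.one_mul, Matrix.mul_one]
  rw [← h2, hc, Matrix.mul_smul, Matrix.smul_mul, hVe, hVW]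

/-- irreducibility -/
theorem IsHF.irr43 (F : IsHF w Q P Γ T R) (G : IsGalU w Q S P Γ) (he : IsBlk P e) (hVW : V * W = 1)
    (hWV : W * V = e) (U : Submodule ℂ (Fin r → ℂ)) (hU : ∀ y ∈ cpL W V (LG Γ), ∀ u ∈ U, y *ᵥ u ∈ U) : U = ⊥ ∨ U = ⊤ := by
  obtain ⟨Δ, hΔ, hconj⟩ := G.exists_grp he hVW hWV
  refine irr_of_comm (Γ := Δ) (cpL W V (LG Γ)) hconj (fun U' hU' => hΔ Δ le_rfl (by
    rw [Subgroup.relIndex_self]; exact one_ne_zero) U' hU') (fun Z hZ => F.com_blk G he hVW hWV fun i => ?_) U hU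
  exact hZ _ ⟨_, (F.ht i).hR_mem, rfl⟩

section T0

variable (G : IsGalU w Q S P Γ) (he : IsBlk P e) (hVW : V * W = 1) (hWV : W * V = e)

theorem T0_dec (hr : 0 < r) {y : Matrix (Fin r) (Fin r) ℂ} (hy : y ∈ cpS W V (LG Γ)) :
    y - (y.trace / r) • (1 : Matrix (Fin r) (Fin r) ℂ) ∈ T0 (cpS W V (LG Γ)) := by
  have hr0 : (r : ℂ) ≠ 0 := by exact_mod_cast hr.ne'
  rw [mem_T0]
  refine ⟨Submodule.sub_mem _ hy (Submodule.smul_mem _ _ one_cpS), ?_⟩
  rw [Matrix.trace_sub, Matrix.trace_smul, Matrix.trace_one, Fintype.card_fin, smul_eq_mul, div_mul_cancel₀ _ hr0,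
    sub_self]

include G he hVW hWV in
theorem T0_br : ∀ X ∈ T0 (cpS W V (LG Γ)), ∀ Y ∈ T0 (cpS W V (LG Γ)), X * Y - Y * X ∈ T0 (cpS W V (LG Γ)) := by
  intro x hx y hy
  rw [mem_T0] at hx hy ⊢
  refine ⟨G.cpS_br he hVW hWV x hx.1 y hy.1, ?_⟩
  rw [Matrix.trace_sub, Matrix.trace_mul_comm, sub_self]

theorem T0_irr (hr : 0 < r)
    (hirr : ∀ U : Submodule ℂ (Fin r → ℂ), (∀ y ∈ cpL W V (LG Γ), ∀ u ∈ U, y *ᵥ u ∈ U) → U = ⊥ ∨ U = ⊤)
    (U : Submodule ℂ (Fin r → ℂ)) (hU : ∀ y ∈ T0 (cpS W V (LG Γ)), ∀ u ∈ U, y *ᵥ u ∈ U) : U = ⊥ ∨ U = ⊤ := by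
  refine hirr U fun y hy u hu => ?_
  have e1 := hU _ (T0_dec hr (le_cpS hy)) u hu
  have e2 : y *ᵥ u = (y - (y.trace / r) • (1 : Matrix (Fin r) (Fin r) ℂ)) *ᵥ u + (y.trace / r) • u := by
    rw [Matrix.sub_mulVec, Matrix.smul_mulVec, Matrix.one_mulVec, sub_add_cancel]
  rw [e2]
  exact U.add_mem e1 (U.smul_mem _ hu)

include G he hVW hWV in
/-- the shifted Hodge-Tate element -/
theorem exists_sh43 (hr : 0 < r) {S1 : Finset ℤ} {R1 : ℤ → Matrix n n ℂ} (hR1 : IsHTw w Q S1 Γ R1) :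
    ∃ (t : ℝ) (E : ℝ → Matrix (Fin r) (Fin r) ℂ) (Λ : Finset ℝ),
      V * hR S1 R1 * W - (t : ℂ) • (1 : Matrix (Fin r) (Fin r) ℂ) ∈ T0 (cpS W V (LG Γ)) ∧
      SD (V * hR S1 R1 * W - (t : ℂ) • (1 : Matrix (Fin r) (Fin r) ℂ)) E Λ ∧
      (∀ μ : ℝ, E μ ≠ 0 → ∃ p : ℤ, μ = p - t) ∧ ∀ p : ℤ, (E (p - t)).rank = (e * R1 p).rank := by
  have hr0 : (r : ℂ) ≠ 0 := by exact_mod_cast hr.ne'
  obtain ⟨A, C⟩ := G.exists_CR hR1 he hVW hWV
  have hAA : ∀ p, A p * A p = A p := fun p => by rw [C.mul, if_pos rfl]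
  obtain ⟨t, ht⟩ : ∃ t : ℝ, (V * hR S1 R1 * W).trace = (t : ℂ) * r := by
    refine ⟨(∑ p ∈ S1, (p : ℝ) * (A p).rank) / r, ?_⟩
    rw [C.h, Matrix.trace_sum]
    push_cast
    rw [div_mul_cancel₀ _ hr0]
    refine Finset.sum_congr rfl fun p _ => ?_
    rw [Matrix.trace_smul, trace_eq_rank (hAA p), smul_eq_mul]
  obtain ⟨E, Λ, hSD, hE, hΛ, hint⟩ := C.exists_sdU t
  refine ⟨t, E, Λ, ?_, hSD, hint, fun p => by rw [hE p, C.rank]⟩
  have e1 := T0_dec (W := W) (V := V) hr (y := V * hR S1 R1 * W) (le_cpS ⟨_, hR1.hR_mem, rfl⟩)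
  rwa [ht, mul_div_cancel_right₀ _ hr0] at e1

include G he hVW hWV in
/-- the shifted Hodge-Tate element, if there is a form -/
theorem exists_shW43 (hr : 0 < r) {F Fi : Matrix (Fin r) (Fin r) ℂ} (hF1 : F * Fi = 1) (hF2 : Fi * F = 1)
    {S1 : Finset ℤ} {R1 : ℤ → Matrix n n ℂ} (hR1 : IsHTw w Q S1 Γ R1)
    (hFh : ((2 : ℂ) • (V * hR S1 R1 * W) - (w : ℂ) • (1 : Matrix (Fin r) (Fin r) ℂ))ᵀ * F +
          F * ((2 : ℂ) • (V * hR S1 R1 * W) - (w : ℂ) • (1 : Matrix (Fin r) (Fin r) ℂ)) = 0) {t : ℝ}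
    (ht : V * hR S1 R1 * W - (t : ℂ) • (1 : Matrix (Fin r) (Fin r) ℂ) ∈ T0 (cpS W V (LG Γ))) :
    ∃ (E : ℝ → Matrix (Fin r) (Fin r) ℂ) (Λ : Finset ℝ),
      SD ((2 : ℂ) • (V * hR S1 R1 * W - (t : ℂ) • (1 : Matrix (Fin r) (Fin r) ℂ))) E Λ ∧
      (∀ μ : ℝ, E μ ≠ 0 → ∃ p : ℤ, μ = ((2 * p - w : ℤ) : ℝ)) ∧ 
      (∀ p : ℤ, (E ((2 * p - w : ℤ) : ℝ)).rank = (e * R1 p).rank) ∧ (2 : ℂ) * t = w := by
  have hr0 : (r : ℂ) ≠ 0 := by exact_mod_cast hr.ne'
  obtain ⟨A, C⟩ := G.exists_CR hR1 he hVW hWV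
  obtain ⟨E, Λ, hSD, hE, hΛ, hint⟩ := C.exists_sdW w
  have htr : ((2 : ℂ) • (V * hR S1 R1 * W) - (w : ℂ) • (1 : Matrix (Fin r) (Fin r) ℂ)).trace = 0 := by
    obtain ⟨X, hX⟩ : ∃ X, X = (2 : ℂ) • (V * hR S1 R1 * W) - (w : ℂ) • (1 : Matrix (Fin r) (Fin r) ℂ) := ⟨_, rfl⟩
    rw [← hX] at hFh ⊢
    have e1 : Xᵀ * F = -(F * X) := eq_neg_of_add_eq_zero_left hFh
    have e2 : X.trace = -X.trace := by
      calc X.trace = Xᵀ.trace := (Matrix.trace_transpose X).symm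
        _ = (Xᵀ * F * Fi).trace := by rw [Matrix.mul_assoc, hF1, Matrix.mul_one]
        _ = -(F * X * Fi).trace := by rw [e1, Matrix.neg_mul, Matrix.trace_neg]
        _ = -X.trace := by rw [Matrix.mul_assoc, Matrix.trace_mul_comm, Matrix.mul_assoc, hF2, Matrix.mul_one]
    have e3 : (2 : ℂ) * X.trace = 0 := by linear_combination e2
    exact (mul_eq_zero.1 e3).resolve_left two_ne_zero
  have h1 : (2 : ℂ) * t = w := by
    have h2 := (mem_T0.1 ht).2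
    rw [Matrix.trace_sub, Matrix.trace_smul, Matrix.trace_one, Fintype.card_fin, smul_eq_mul] at h2
    rw [Matrix.trace_sub, Matrix.trace_smul, Matrix.trace_smul, Matrix.trace_one, Fintype.card_fin, smul_eq_mul,
      smul_eq_mul] at htr
    have h3 : ((2 : ℂ) * t - w) * r = 0 := by linear_combination htr - 2 * h2
    exact sub_eq_zero.1 ((mul_eq_zero.1 h3).resolve_right hr0)
  refine ⟨E, Λ, ?_, hint, fun p => by rw [hE p, C.rank], h1⟩
  have h2 : (2 : ℂ) • (V * hR S1 R1 * W - (t : ℂ) • (1 : Matrix (Fin r) (Fin r) ℂ)) =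
      (2 : ℂ) • (V * hR S1 R1 * W) - (w : ℂ) • (1 : Matrix (Fin r) (Fin r) ℂ) := by
    rw [smul_sub, smul_smul, h1]
  rw [h2]
  exact hSD

end T0

/-- the invariant form in coordinates -/
theorem IsGalU.exists_form43 (H : IsHW w Q S P) (G : IsGalU w Q S P Γ) (he : IsBlk P e) (hVW : V * W = 1)
    (hWV : W * V = e)
    (hirr : ∀ U : Submodule ℂ (Fin r → ℂ), (∀ y ∈ cpL W V (LG Γ), ∀ u ∈ U, y *ᵥ u ∈ U) → U = ⊥ ∨ U = ⊤) (hr : 0 < r)
    {x : Matrix n n ℂ} (hx : x ∈ EC P) (hx0 : eᵀ * (toC Q * x) * e ≠ 0) :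
    ∃ F Fi : Matrix (Fin r) (Fin r) ℂ, F = Wᵀ * (toC Q * x) * W ∧ F * Fi = 1 ∧ Fi * F = 1 ∧ (Fᵀ = F ∨ Fᵀ = -F) ∧
      (∀ x ∈ cpS W V (LG Γ), ∃ c : ℂ, xᵀ * F + F * x = c • F) ∧
      ∀ (S1 : Finset ℤ) (R1 : ℤ → Matrix n n ℂ), IsHTw w Q S1 Γ R1 →
        ((2 : ℂ) • (V * hR S1 R1 * W) - (w : ℂ) • (1 : Matrix (Fin r) (Fin r) ℂ))ᵀ * F +
          F * ((2 : ℂ) • (V * hR S1 R1 * W) - (w : ℂ) • (1 : Matrix (Fin r) (Fin r) ℂ)) = 0 := by
  classical
  have hne : Nonempty (Fin r) := ⟨⟨0, hr⟩⟩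
  have heW : e * W = W := by
    rw [← hWV, Matrix.mul_assoc, hVW, Matrix.mul_one]
  have hVe : V * e = V := by
    rw [← hWV, ← Matrix.mul_assoc, hVW, Matrix.one_mul]
  obtain ⟨F, hF⟩ : ∃ F, F = Wᵀ * (toC Q * x) * W := ⟨_, rfl⟩
  have key : ∀ (X : Matrix n n ℂ) (c : ℂ), X * e = e * X → X * x = x * X → Xᵀ * toC Q + toC Q * X = c • toC Q →
      (V * X * W)ᵀ * F + F * (V * X * W) = c • F := by
    intro X c h1 h2 h3
    have a1 : W * (V * X * W) = X * W := by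
      calc W * (V * X * W) = (W * V) * X * W := by simp only [Matrix.mul_assoc]
        _ = X * (e * W) := by rw [hWV, ← h1, Matrix.mul_assoc]
        _ = X * W := by rw [heW]
    calc (V * X * W)ᵀ * F + F * (V * X * W)
        = (W * (V * X * W))ᵀ * (toC Q * x) * W + Wᵀ * (toC Q * x) * (W * (V * X * W)) := by
          rw [hF, Matrix.transpose_mul W]
          simp only [Matrix.mul_assoc]
      _ = Wᵀ * ((Xᵀ * toC Q + toC Q * X) * x) * W := by
          rw [a1, Matrix.transpose_mul, Matrix.add_mul, Matrix.mul_add, Matrix.add_mul, Matrix.mul_assoc (toC Q) X x,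
            h2]
          simp only [Matrix.mul_assoc]
      _ = c • F := by
          rw [h3, hF, smul_mul_assoc, Matrix.mul_smul, Matrix.smul_mul]
  have hL : ∀ y ∈ cpL W V (LG Γ), ∃ c : ℂ, yᵀ * F + F * y = c • F := by
    rintro _ ⟨X, hX, rfl⟩
    obtain ⟨c, hc⟩ := G.LG_sim H hX
    exact ⟨c, key X c (G.LG_com hX he.mem) (G.LG_com hX hx) hc⟩
  have hF0 : F ≠ 0 := by
    intro h0
    apply hx0
    calc eᵀ * (toC Q * x) * e = Vᵀ * (Wᵀ * (toC Q * x) * W) * V := by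
          rw [← hWV, Matrix.transpose_mul]
          simp only [Matrix.mul_assoc]
      _ = 0 := by rw [← hF, h0, Matrix.mul_zero, Matrix.zero_mul]
  have hker : LinearMap.ker (Matrix.toLin' F) = ⊥ := by
    rcases hirr (LinearMap.ker (Matrix.toLin' F)) (by
      intro y hy u hu
      obtain ⟨c, hc⟩ := hL y hy
      rw [LinearMap.mem_ker, Matrix.toLin'_apply] at hu ⊢
      have h1 : F * y = c • F - yᵀ * F := by rw [← hc]; abel
      rw [Matrix.mulVec_mulVec, h1, Matrix.sub_mulVec, Matrix.smul_mulVec, ← Matrix.mulVec_mulVec, hu,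
        Matrix.mulVec_zero, smul_zero, sub_zero]) with h1 | h1
    · exact h1
    · exfalso
      apply hF0
      rw [LinearMap.ker_eq_top] at h1
      exact (LinearEquiv.map_eq_zero_iff _).1 h1
  have hu : IsUnit F := by
    rw [← Matrix.isUnit_toLin'_iff]
    exact (LinearMap.isUnit_iff_ker_eq_bot _).2 hker
  obtain ⟨⟨F0, Fi, h1, h2⟩, rfl⟩ := hu
  change ∀ y ∈ cpL W V (LG Γ), ∃ c : ℂ, yᵀ * F0 + F0 * y = c • F0 at hL
  change F0 = Wᵀ * (toC Q * x) * W at hF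
  change F0 ≠ 0 at hF0
  have hcS : ∀ y ∈ cpS W V (LG Γ), ∃ c : ℂ, yᵀ * F0 + F0 * y = c • F0 := by
    intro y hy
    obtain ⟨y', hy', d, rfl⟩ := mem_cpS.1 hy
    obtain ⟨c, hc⟩ := hL y' hy'
    refine ⟨c + 2 * d, ?_⟩
    rw [Matrix.transpose_add, Matrix.transpose_smul, Matrix.transpose_one, Matrix.add_mul, Matrix.mul_add,
      Matrix.smul_mul, Matrix.mul_smul, Matrix.one_mul, Matrix.mul_one, add_smul, ← hc, mul_smul, two_smul]
    abel
  -- the sign of the form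
  have hsym : F0ᵀ = F0 ∨ F0ᵀ = -F0 := by
    obtain ⟨d, hd⟩ := schur98 (cpS W V (LG Γ)) (fun U hU => hirr U fun y hy => hU y (le_cpS hy)) (T := Fi * F0ᵀ) (by
      intro y hy
      obtain ⟨c, hc⟩ := hcS y hy
      have e1 : yᵀ * F0ᵀ + F0ᵀ * y = c • F0ᵀ := by
        have e2 := congrArg Matrix.transpose hc
        rw [Matrix.transpose_add, Matrix.transpose_mul, Matrix.transpose_mul, Matrix.transpose_transpose,
          Matrix.transpose_smul] at e2
        rw [add_comm, e2]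
      have e3 : F0 * y = c • F0 - yᵀ * F0 := by rw [← hc]; abel
      have e4 : F0ᵀ * y = c • F0ᵀ - yᵀ * F0ᵀ := by rw [← e1]; abel
      have e5 : F0 * (y * (Fi * F0ᵀ)) = F0ᵀ * y := by
        calc F0 * (y * (Fi * F0ᵀ)) = (F0 * y) * (Fi * F0ᵀ) := by rw [Matrix.mul_assoc]
          _ = c • ((F0 * Fi) * F0ᵀ) - yᵀ * ((F0 * Fi) * F0ᵀ) := by
              rw [e3, sub_mul, smul_mul_assoc]
              simp only [Matrix.mul_assoc]
          _ = F0ᵀ * y := by rw [h1, one_mul, e4]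
      calc Fi * F0ᵀ * y = Fi * (F0 * (y * (Fi * F0ᵀ))) := by rw [e5, Matrix.mul_assoc]
        _ = (Fi * F0) * (y * (Fi * F0ᵀ)) := by rw [Matrix.mul_assoc]
        _ = y * (Fi * F0ᵀ) := by rw [h2, one_mul])
    have e1 : F0ᵀ = d • F0 := by
      calc F0ᵀ = F0 * (Fi * F0ᵀ) := by rw [← Matrix.mul_assoc, h1, one_mul]
        _ = d • F0 := by rw [hd, Matrix.mul_smul, Matrix.mul_one]
    have e2 : F0 = (d * d) • F0 := by
      calc F0 = (F0ᵀ)ᵀ := (Matrix.transpose_transpose _).symm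
        _ = (d * d) • F0 := by
            rw [e1, Matrix.transpose_smul]
            rw [e1, smul_smul]
    have e3 : (1 - d * d) • F0 = 0 := by rw [sub_smul, one_smul, ← e2, sub_self]
    have e4 : d * d = 1 := by
      have e5 := (smul_eq_zero.1 e3).resolve_right hF0
      linear_combination -e5
    rcases mul_self_eq_one_iff.1 e4 with h | h
    · left
      rw [e1, h, one_smul]
    · right
      rw [e1, h, neg_one_smul]
  refine ⟨F0, Fi, hF, h1, h2, hsym, hcS, ?_⟩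
  intro S1 R1 hR1
  have h4 := key ((2 : ℂ) • hR S1 R1 - (w : ℂ) • (1 : Matrix n n ℂ)) 0 (by
    rw [sub_mul, mul_sub, smul_mul_assoc, mul_smul_comm, G.LG_com hR1.hR_mem he.mem, smul_mul_assoc, mul_smul_comm,
      one_mul, mul_one]) (by
    rw [sub_mul, mul_sub, smul_mul_assoc, mul_smul_comm, G.LG_com hR1.hR_mem hx, smul_mul_assoc, mul_smul_comm,
      one_mul, mul_one]) (by
    rw [hR1.skewW, zero_smul])
  rw [zero_smul] at h4
  have h5 : V * ((2 : ℂ) • hR S1 R1 - (w : ℂ) • (1 : Matrix n n ℂ)) * W =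
      (2 : ℂ) • (V * hR S1 R1 * W) - (w : ℂ) • (1 : Matrix (Fin r) (Fin r) ℂ) := by
    rw [Matrix.mul_sub, Matrix.sub_mul, Matrix.mul_smul, Matrix.smul_mul, Matrix.mul_smul, Matrix.smul_mul,
      Matrix.mul_one, hVW]
  rwa [h5] at h4


/-- **The Lie algebra of the block is simple.** -/
theorem IsHF.smp43 (H : IsHW w Q S P) (F : IsHF w Q P Γ T R) (G : IsGalU w Q S P Γ) (he : IsBlk P e) (hVW : V * W = 1)
    (hWV : W * V = e) (hr : 2 ≤ r) {i0 : ι} {t : ℝ}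
    (ht : V * hR (T i0) (R i0) * W - (t : ℂ) • (1 : Matrix (Fin r) (Fin r) ℂ) ∈ T0 (cpS W V (LG Γ)))
    (hD : Dch (T0 (cpS W V (LG Γ))) (V * hR (T i0) (R i0) * W - (t : ℂ) • (1 : Matrix (Fin r) (Fin r) ℂ)))
    (hN : (∀ i, NoF (fun p => (e * R i0 p).rank) (fun p => (e * R i p).rank)) ∨
      SelfB Q P e ∧ ∀ i, NoFS w (fun p => (e * R i0 p).rank) (fun p => (e * R i p).rank)) :
    Smp (T0 (cpS W V (LG Γ))) := by
  classical
  have hne : Nonempty (Fin r) := ⟨⟨0, by omega⟩⟩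
  have hr' : 0 < r := by omega
  have hr0 : (r : ℂ) ≠ 0 := by exact_mod_cast hr'.ne'
  have hbr := T0_br G he hVW hWV
  have hirr := T0_irr hr' (F.irr43 G he hVW hWV)
  have htr : ∀ X ∈ T0 (cpS W V (LG Γ)), X.trace = 0 := fun X hX => (mem_T0.1 hX).2
  choose s Es Λs hs1 hs2 hs3 hs4 using fun i => exists_sh43 G he hVW hWV hr' (F.ht i)
  have ht0 : (t : ℂ) = s i0 := by
    have h1 := (mem_T0.1 ht).2
    have h2 := (mem_T0.1 (hs1 i0)).2
    rw [Matrix.trace_sub, Matrix.trace_smul, Matrix.trace_one, Fintype.card_fin, smul_eq_mul] at h1 h2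
    have h3 : ((t : ℂ) - s i0) * r = 0 := by linear_combination h2 - h1
    exact sub_eq_zero.1 ((mul_eq_zero.1 h3).resolve_right hr0)
  rw [ht0] at ht hD
  refine smp_of_fam (L := T0 (cpS W V (LG Γ))) (h := fun i => V * hR (T i) (R i) * W - (s i : ℂ) • (1 : Matrix (Fin r) (Fin r) ℂ))
    hbr hirr htr ht (hs2 i0) hD (fun i => ?_) fun Z hZ => F.com_blk G he hVW hWV fun i => ?_
  · rcases hN with hN | ⟨⟨x, hx, hx0⟩, hN⟩
    · refine nfc_U43 hbr hirr htr (hs1 i) (hs2 i) (s i) (hs3 i) (hs2 i0) fun f g hfg hdv => ?_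
      refine hN i f g (fun p => by simp only; rw [← hs4 i p]; exact hfg p) fun p => ?_
      simp only
      rw [← hs4 i0 p]
      exact hdv _
    · obtain ⟨F', Fi, -, hF1, hF2, hFs, hFL, hFh⟩ := G.exists_form43 H he hVW hWV (F.irr43 G he hVW hWV) hr' hx hx0
      obtain ⟨E0, Λ0, g1, g2, g3, g4⟩ := exists_shW43 G he hVW hWV hr' hF1 hF2 (F.ht i0) (hFh _ _ (F.ht i0)) (hs1 i0)
      obtain ⟨E1, Λ1, k1, k2, k3, k4⟩ := exists_shW43 G he hVW hWV hr' hF1 hF2 (F.ht i) (hFh _ _ (F.ht i)) (hs1 i)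
      have hsk : ∀ X ∈ T0 (cpS W V (LG Γ)), Xᵀ * F' + F' * X = 0 := by
        intro X hX
        rw [mem_T0] at hX
        obtain ⟨c, hc⟩ := hFL X hX.1
        have h1 : Xᵀ + F' * X * Fi = c • (1 : Matrix (Fin r) (Fin r) ℂ) := by
          have h3 := congrArg (fun Y => Y * Fi) hc
          simp only [Matrix.add_mul, Matrix.smul_mul, hF1] at h3
          rw [Matrix.mul_assoc Xᵀ, hF1, Matrix.mul_one] at h3
          exact h3
        have h2 := congrArg Matrix.trace h1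
        rw [Matrix.trace_add, Matrix.trace_transpose, Matrix.trace_mul_comm, ← Matrix.mul_assoc, hF2, Matrix.one_mul,
          hX.2, Matrix.trace_smul, Matrix.trace_one, Fintype.card_fin, smul_eq_mul, add_zero] at h2
        have h3 : c = 0 := (mul_eq_zero.1 h2.symm).resolve_right hr0
        rw [hc, h3, zero_smul]
      refine Nfc.smul43 (c := 2) two_ne_zero (nfc_W43 hFs hF1 hF2 hbr hirr htr hsk (Submodule.smul_mem _ _ (hs1 i)) k1 k2 g1
        fun a f g hf hg hfg hdv => ?_)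
      refine hN i a f g hf hg (fun p => by simp only; rw [← k3 p]; exact hfg p) fun p => ?_
      simp only
      rw [← g3 p]
      exact hdv _
  · have h1 := hZ i
    rw [mul_sub, sub_mul, Matrix.mul_smul, Matrix.smul_mul, Matrix.mul_one, Matrix.one_mul] at h1
    exact sub_left_injective h1

end cmp

end MH
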