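import Pool.Agent.Helper43.BL2.Fam2
import Pool.Agent.Helper81.BL2.Nof
import Pool.Agent.Helper55.BL2.Two

/-!
Project BL2 (MP_b8862a_ag): blocks without common divisor, and blocks all of whose conjugates have a large Hodge number.
-/

set_option linter.unusedSectionVars false
set_option linter.unusedVariables false

open Matrix Module GH OW

namespace MH

variable {n : Type*} [Fintype n] [DecidableEq n]
variable {w : ℤ} {Q : Matrix n n ℚ} {S : Finset ℤ} {P : ℤ → Matrix n n ℂ} {e : Matrix n n ℂ}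

/-- numbers without common divisor -/
theorem noF_of_one43 {u v : ℤ → ℕ} (hg : ∀ d : ℕ, (∀ p, d ∣ u p) → d = 1) : NoF u v := by
  intro f g hfg hdv
  have h1 : (g.sum fun _ x => x) = 1 := hg _ hdv
  have h2 : ∑ _ ∈ g.support, 1 ≤ ∑ i ∈ g.support, g i :=
    Finset.sum_le_sum fun i hi => Nat.one_le_iff_ne_zero.2 (Finsupp.mem_support_iff.1 hi)
  rw [Finset.sum_const, smul_eq_mul, mul_one] at h2
  exact h2.trans (le_of_eq h1)

theorem StarB.of_one43 {σ : ℂ ≃+* ℂ} (hg : ∀ d : ℕ, (∀ p, d ∣ (e.map σ * P p).rank) → d = 1) : StarB w Q P e σ :=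
  Or.inl fun τ => noF_of_one43 hg

/-- the numbers of the conjugates are symmetric -/
theorem IsHW.pal_mt43 (H : IsHW w Q S P) (he : IsBlk P e) (hr2 : 2 ≤ e.rank) (hO : SelfB Q P e) (σ : ℂ ≃+* ℂ) (j : ℤ) :
    (e.map σ * P (w - j)).rank = (e.map σ * P j).rank := by
  obtain ⟨r, W, V, hVW, hWV⟩ := exists_coord48 he.idem
  have hre : e.rank = r := _root_.MH.blk_rank he hVW hWV
  have h1 := pal43 H H.isGalU_MT he hVW hWV (H.isHF43.irr43 H.isGalU_MT he hVW hWV) (by omega) hO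
    (H.isHF43.ht σ) j
  rwa [H.rank_symm43 he, H.rank_symm43 he] at h1

/-- **blocks all of whose conjugates have a large Hodge number** -/
theorem IsHW.star_dom43 (H : IsHW w Q S P) (he : IsBlk P e) (hr2 : 2 ≤ e.rank)
    (hD : ∀ σ : ℂ ≃+* ℂ, DomB w Q S P (e.map σ)) : ∃ σ : ℂ ≃+* ℂ, StarB w Q P e σ ∧ DomB w Q S P (e.map σ) := by
  classical
  obtain ⟨σ, hσ⟩ : ∃ σ : ℂ ≃+* ℂ, ∀ p, (e.map σ * P p).rank ≠ e.rank := by
    obtain ⟨r, W, V, hVW, hWV⟩ := exists_coord48 he.idem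
    have hre : e.rank = r := _root_.MH.blk_rank he hVW hWV
    obtain ⟨σ, hσ⟩ := H.isHF43.exists_ns43 H.isGalU_MT he hVW hWV (by omega)
    refine ⟨σ, fun p hp => hσ p ?_⟩
    rw [H.rank_symm43 he, hp, hre]
  refine ⟨σ, ?_, hD σ⟩
  have hS : ∀ (τ : ℂ ≃+* ℂ) p, p ∉ S → (e.map τ * P p).rank = 0 := fun τ p hp => H.supp_blk14 _ p hp
  have hr : ∀ τ : ℂ ≃+* ℂ, ∑ p ∈ S, (e.map τ * P p).rank = e.rank := fun τ => by
    rw [H.sum_blk14 (he.aut τ), rank_aut _ he.idem]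
  by_cases hO : (∃ m, w = 2 * m) ∧ OrthB Q P e
  · obtain ⟨⟨m, hm⟩, hO⟩ := hO
    have hsy : ∀ (τ : ℂ ≃+* ℂ) (k : ℤ), (e.map τ * P (m - k)).rank = (e.map τ * P (m + k)).rank := by
      intro τ k
      have h1 := H.pal_mt43 he hr2 hO.self43 τ (m + k)
      rwa [hm, show 2 * m - (m + k) = m - k by ring] at h1
    have key : ∀ τ : ℂ ≃+* ℂ, (∃ p, e.rank ≤ (e.map τ * P p).rank + 1 ∨ (e.rank - (e.map τ * P p).rank + 1) ^ 2 ≤ e.rank) ∨
        ((∀ k : ℤ, (e.map τ * P (m - k)).rank = (e.map τ * P (m + k)).rank) ∧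
          2 ≤ ∑ p ∈ S.filter (fun p => m < p), (e.map τ * P p).rank ∧
          (∑ p ∈ S.filter (fun p => m < p), (e.map τ * P p).rank) ^ 2 < (e.map τ * P m).rank) := by
      intro τ
      rcases hD τ with ⟨p, hp⟩ | ⟨m', hm', -, hM⟩
      · left
        rw [rank_aut _ he.idem] at hp
        exact ⟨p, hp⟩
      · have h1 : m' = m := by omega
        subst h1
        rcases hM with hM | ⟨hM1, hM2⟩
        · left
          refine ⟨m', Or.inl ?_⟩
          rw [hM, rank_aut _ he.idem]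
          omega
        · exact Or.inr ⟨hsy τ, hM1, hM2⟩
    refine Or.inr ⟨hO.self43, fun τ => ?_⟩
    rw [hm]
    refine noFS_dom (hS σ) (hS τ) (hr σ) (hr τ) ?_ (key τ) hσ
    rcases key σ with h1 | ⟨h1, h2, h3⟩
    · exact Or.inl h1
    · exact Or.inr ⟨m, h1, h2, h3⟩
  · refine Or.inl fun τ => ?_
    have key : ∀ τ : ℂ ≃+* ℂ, ∃ p, e.rank ≤ (e.map τ * P p).rank + 1 ∨ (e.rank - (e.map τ * P p).rank + 1) ^ 2 ≤ e.rank := by
      intro τ
      rcases hD τ with ⟨p, hp⟩ | ⟨m', hm', hO', -⟩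
      · rw [rank_aut _ he.idem] at hp
        exact ⟨p, hp⟩
      · refine absurd ⟨⟨m', hm'⟩, ?_⟩ hO
        have h1 := OrthB.aut43 τ.symm hO'
        rwa [map_symmσ'] at h1
    exact noF_dom (hS σ) (hS τ) (hr σ) (hr τ) (key σ) (key τ) hσ

/-- **weight two** -/
theorem IsHW.star_two43 (H : IsHW 2 Q S P) (hP : ∀ p, p ≠ 0 → p ≠ 1 → p ≠ 2 → P p = 0) (he : IsBlk P e)
    (h9 : 9 ≤ e.rank) (hr : ((P 2).rank + 1) ^ 2 ≤ e.rank) :
    ∃ σ : ℂ ≃+* ℂ, StarB 2 Q P e σ ∧ DomB 2 Q S P (e.map σ) :=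
  H.star_dom43 he (by omega) fun σ => H.domB_two hP he h9 hr σ

end MH
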