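import Pool.Agent.Helper43.BL2.Split
import Pool.Agent.Helper98.AT.Blk
import Pool.Agent.Helper14.PP.DatG

/-!
Project BL2 (MP_b8862a_ag): an irreducible Lie algebra of matrices that contains a family of diagonalisable elements with scalar
commutant is simple, if the multiplicities are not those of certain products.
-/

set_option linter.unusedSectionVars false
set_option linter.unusedVariables false

open Matrix Module GH OW

namespace MH

variable {n : Type*} [Fintype n] [DecidableEq n] {L : Submodule ℂ (Matrix n n ℂ)}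

/-- `h` lies in every ideal of `L` or commutes with it -/
def Dch (L : Submodule ℂ (Matrix n n ℂ)) (h : Matrix n n ℂ) : Prop :=
  ∀ K ≤ L, (∀ X ∈ L, ∀ Y ∈ K, X * Y - Y * X ∈ K) → h ∈ K ∨ ∀ y ∈ K, h * y = y * h

/-- `h` commutes with the commutant of every ideal that contains `h0` -/
def Nfc (L : Submodule ℂ (Matrix n n ℂ)) (h0 h : Matrix n n ℂ) : Prop :=
  ∀ K ≤ L, (∀ X ∈ L, ∀ Y ∈ K, X * Y - Y * X ∈ K) → h0 ∈ K →
    ∀ T : Matrix n n ℂ, (∀ a ∈ K, T * a = a * T) → T * h = h * T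

/-- what commutes with `h` commutes with its projections -/
theorem SD.comm43 {h : Matrix n n ℂ} {E : ℝ → Matrix n n ℂ} {Λ : Finset ℝ} (hE : SD h E Λ) {T : Matrix n n ℂ}
    (hT : T * h = h * T) (μ : ℝ) : T * E μ = E μ * T := by
  have key : ∀ μ ν : ℝ, μ ≠ ν → E ν * T * E μ = 0 := by
    intro μ ν hν
    have e1 : E ν * (T * h) * E μ = (μ : ℂ) • (E ν * T * E μ) := by
      rw [← mul_assoc, mul_assoc (E ν * T), hE.l_mul, mul_smul_comm]
    have e2 : E ν * (h * T) * E μ = (ν : ℂ) • (E ν * T * E μ) := by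
      rw [← mul_assoc, hE.mul_l, smul_mul_assoc, smul_mul_assoc]
    rw [hT, e2] at e1
    have e3 : ((ν : ℂ) - μ) • (E ν * T * E μ) = 0 := by rw [sub_smul, e1, sub_self]
    rcases smul_eq_zero.1 e3 with e4 | e4
    · exact absurd (by exact_mod_cast (sub_eq_zero.1 e4).symm) hν
    · exact e4
  by_cases hμ : μ ∈ Λ
  · have e1 : T * E μ = E μ * T * E μ := by
      conv_lhs => rw [← one_mul (T * E μ), ← hE.sum, Finset.sum_mul]
      rw [Finset.sum_eq_single_of_mem μ hμ]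
      · rw [mul_assoc]
      · intro ν _ hν
        rw [← mul_assoc, key μ ν (Ne.symm hν)]
    have e2 : E μ * T = E μ * T * E μ := by
      conv_lhs => rw [← mul_one (E μ * T), ← hE.sum, Finset.mul_sum]
      rw [Finset.sum_eq_single_of_mem μ hμ]
      intro ν _ hν
      exact key ν μ hν
    rw [e1, ← e2]
  · rw [hE.supp hμ, mul_zero, zero_mul]

/-- **Simplicity from a family.** -/
theorem smp_of_fam [Nonempty n] {ι : Type*} (hbr : ∀ X ∈ L, ∀ Y ∈ L, X * Y - Y * X ∈ L)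
    (hirr : ∀ W : Submodule ℂ (n → ℂ), (∀ X ∈ L, ∀ w ∈ W, X *ᵥ w ∈ W) → W = ⊥ ∨ W = ⊤)
    (htr : ∀ X ∈ L, X.trace = 0) {h0 : Matrix n n ℂ} (hh0 : h0 ∈ L) {E : ℝ → Matrix n n ℂ} {Λ : Finset ℝ}
    (hE : SD h0 E Λ) (hD : Dch L h0) {h : ι → Matrix n n ℂ} (hN : ∀ i, Nfc L h0 (h i))
    (hcom : ∀ T : Matrix n n ℂ, (∀ i, T * h i = h i * T) → ∃ c : ℂ, T = c • (1 : Matrix n n ℂ)) : Smp L := by
  classical
  obtain ⟨B, Bi, h1, h2, h3, h4⟩ := exists_herm L hbr hirr htr hh0 hE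
  have D : DatU (LBB71 L B Bi) (cj B Bi h0) (fun μ => cj B Bi (E μ)) Λ := by
    refine ⟨spec_of98 (sd_cj98 hE h1 h2) h3, ?_, ?_, ?_, ?_, ?_⟩
    · intro x hx y hy
      rw [mem_LBB71, cj_sub, ← cj_mul h1, ← cj_mul h1]
      exact hbr _ (mem_LBB71.1 hx) _ (mem_LBB71.1 hy)
    · intro x hx
      have e1 := h4 _ (mem_LBB71.1 hx)
      rwa [cj_cj h1] at e1
    · intro T hT
      obtain ⟨c, hc⟩ := schur98 L hirr (T := cj Bi B T) (by
        intro X hX
        have e1 := hT (cj B Bi X) (by rw [mem_LBB71, cj_cj h2]; exact hX)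
        have e2 := congrArg (cj Bi B) e1
        rwa [← cj_mul h1, ← cj_mul h1, cj_cj h2] at e2)
      refine ⟨c, ?_⟩
      have e3 := congrArg (cj B Bi) hc
      rwa [cj_cj h1, cj_smul, cj_one h1] at e3
    · intro x hx
      have e1 := htr _ (mem_LBB71.1 hx)
      rwa [trace_cj98 h1] at e1
    · rw [mem_LBB71, cj_cj h2]
      exact hh0
  refine Smp.of_LBB h1 h2 ?_
  have hor : ∀ K : Submodule ℂ (Matrix n n ℂ), IsI (LBB71 L B Bi) K → cj B Bi h0 ∈ K ∨ cj B Bi h0 ∈ pp (LBB71 L B Bi) K := by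
    intro K hK
    have hle : LBB71 K Bi B ≤ L := by
      intro x hx
      have e1 := hK.le (mem_LBB71.1 hx)
      rwa [mem_LBB71, cj_cj h2] at e1
    rcases hD (LBB71 K Bi B) hle (by
      intro X hX Y hY
      rw [mem_LBB71, cj_sub, ← cj_mul h2, ← cj_mul h2]
      exact hK.br _ (by rw [mem_LBB71, cj_cj h2]; exact hX) _ (mem_LBB71.1 hY)) with h5 | h5
    · exact Or.inl (mem_LBB71.1 h5)
    · right
      obtain ⟨k, hk, hk'⟩ := decomp (I := K) (cj B Bi h0)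
      have hp : cj B Bi h0 - k ∈ pp (LBB71 L B Bi) K := ⟨(LBB71 L B Bi).sub_mem D.mem (hK.le hk), hk'⟩
      have hk0 : k = 0 := by
        refine D.cen_zeroU (hK.le hk) fun z hz => ?_
        obtain ⟨a, ha, ha'⟩ := decomp (I := K) z
        have hb : z - a ∈ pp (LBB71 L B Bi) K := ⟨(LBB71 L B Bi).sub_mem hz (hK.le ha), ha'⟩
        have e1 : k * a = a * k := by
          have e3 : cj B Bi h0 * a = a * cj B Bi h0 := by
            have e4 := h5 (cj Bi B a) (by rw [mem_LBB71, cj_cj h1]; exact ha)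
            have e5 := congrArg (cj B Bi) e4
            rwa [← cj_mul h2, ← cj_mul h2, cj_cj h1] at e5
          have e4 := hK.comm D.isI ha hp
          rw [mul_sub, sub_mul, e3] at e4
          exact (sub_right_injective e4).symm
        have e2 := hK.comm D.isI hk hb
        have e3 : z = a + (z - a) := by abel
        rw [e3, mul_add, add_mul, e1, e2]
      rwa [hk0, sub_zero] at hp
  obtain ⟨J, hJ, hhJ, hmin⟩ := D.exists_minU
  have hsim : ∀ I ≤ J, (∀ X ∈ LBB71 L B Bi, ∀ Y ∈ I, X * Y - Y * X ∈ I) → I = ⊥ ∨ I = J := fun I hle hid =>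
    D.min_simple_orU hor hJ hhJ hmin hle hid
  have hJL : J = LBB71 L B Bi := by
    refine le_antisymm hJ.le fun x hx => ?_
    obtain ⟨j, hj, hj'⟩ := decomp (I := J) x
    have hk : x - j ∈ pp (LBB71 L B Bi) J := ⟨(LBB71 L B Bi).sub_mem hx (hJ.le hj), hj'⟩
    have h0 : x - j = 0 := by
      -- `x - j` is scalar, of trace zero
      have hle : LBB71 J Bi B ≤ L := by
        intro x hx
        have e1 := hJ.le (mem_LBB71.1 hx)
        rwa [mem_LBB71, cj_cj h2] at e1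
      have e1 : ∀ i, cj Bi B (x - j) * h i = h i * cj Bi B (x - j) := by
        intro i
        refine hN i (LBB71 J Bi B) hle (by
          intro X hX Y hY
          rw [mem_LBB71, cj_sub, ← cj_mul h2, ← cj_mul h2]
          exact hJ.br _ (by rw [mem_LBB71, cj_cj h2]; exact hX) _ (mem_LBB71.1 hY)) (mem_LBB71.2 hhJ) _ ?_
        intro a ha
        have e2 := hJ.comm D.isI (mem_LBB71.1 ha) hk
        have e3 := congrArg (cj Bi B) e2
        rw [← cj_mul h1, ← cj_mul h1, cj_cj h2] at e3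
        exact e3.symm
      obtain ⟨c, hc⟩ := hcom _ e1
      have e2 : x - j = c • (1 : Matrix n n ℂ) := by
        have e3 := congrArg (cj B Bi) hc
        rwa [cj_cj h1, cj_smul, cj_one h1] at e3
      have e3 := D.tr _ hk.1
      rw [e2, trace_smul, trace_one, smul_eq_mul] at e3
      rcases mul_eq_zero.mp e3 with e4 | e4
      · rw [e2, e4, zero_smul]
      · exfalso
        exact Fintype.card_ne_zero (α := n) (by exact_mod_cast e4)
    rw [sub_eq_zero.1 h0]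
    exact hj
  intro K hK hid
  rw [← hJL] at hK
  rcases hsim K hK hid with h1 | h1
  · exact Or.inl h1
  · exact Or.inr (h1.trans hJL)

section U

variable [Nonempty n] (hbr : ∀ X ∈ L, ∀ Y ∈ L, X * Y - Y * X ∈ L)
  (hirr : ∀ W : Submodule ℂ (n → ℂ), (∀ X ∈ L, ∀ w ∈ W, X *ᵥ w ∈ W) → W = ⊥ ∨ W = ⊤)
  (htr : ∀ X ∈ L, X.trace = 0) {h : Matrix n n ℂ} (hh : h ∈ L) {E : ℝ → Matrix n n ℂ} {Λ : Finset ℝ}
  (hE : SD h E Λ)
include hbr hirr htr hh hE

/-- coordinates in which `L` is closed under the adjoint and `h` is self-adjoint -/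
theorem exists_datU43 : ∃ B Bi : Matrix n n ℂ, B * Bi = 1 ∧ Bi * B = 1 ∧
    DatU (LBB71 L B Bi) (cj B Bi h) (fun μ => cj B Bi (E μ)) Λ := by
  obtain ⟨B, Bi, h1, h2, h3, h4⟩ := exists_herm L hbr hirr htr hh hE
  refine ⟨B, Bi, h1, h2, spec_of98 (sd_cj98 hE h1 h2) h3, ?_, ?_, ?_, ?_, ?_⟩
  · intro x hx y hy
    rw [mem_LBB71, cj_sub, ← cj_mul h1, ← cj_mul h1]
    exact hbr _ (mem_LBB71.1 hx) _ (mem_LBB71.1 hy)
  · intro x hx
    have e1 := h4 _ (mem_LBB71.1 hx)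
    rwa [cj_cj h1] at e1
  · intro T hT
    obtain ⟨c, hc⟩ := schur98 L hirr (T := cj Bi B T) (by
      intro X hX
      have e1 := hT (cj B Bi X) (by rw [mem_LBB71, cj_cj h2]; exact hX)
      have e2 := congrArg (cj Bi B) e1
      rwa [← cj_mul h1, ← cj_mul h1, cj_cj h2] at e2)
    refine ⟨c, ?_⟩
    have e3 := congrArg (cj B Bi) hc
    rwa [cj_cj h1, cj_smul, cj_one h1] at e3
  · intro x hx
    have e1 := htr _ (mem_LBB71.1 hx)
    rwa [trace_cj98 h1] at e1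
  · rw [mem_LBB71, cj_cj h2]
    exact hh

/-- the dichotomy, without a form -/
theorem dch_U43 (t : ℝ) (hw : ∀ μ : ℝ, E μ ≠ 0 → ∃ p : ℤ, μ = p - t) (hI : IndecU (fun p : ℤ => (E (p - t)).rank)) :
    Dch L h := by
  classical
  obtain ⟨B, Bi, h1, h2, D⟩ := exists_datU43 hbr hirr htr hh hE
  have hEE : ∀ μ, E μ * E μ = E μ := fun μ => by rw [hE.mul, if_pos rfl]
  have r1 : ∀ μ, (cj B Bi (E μ)).rank = (E μ).rank := fun μ => rank_cj h1 h2 (hEE μ)
  intro K hK hid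
  have hI' := D.isI_ofU (K := LBB71 K B Bi) (fun x hx => hK hx) (by
    intro X hX Y hY
    rw [mem_LBB71, cj_sub, ← cj_mul h1, ← cj_mul h1]
    exact hid _ (mem_LBB71.1 hX) _ (mem_LBB71.1 hY))
  rcases D.h_mem_orU t (fun μ hμ => hw μ fun h0 => hμ (by rw [h0, cj_zero])) (by simp only [r1]; exact hI) hI' with h3 | h3
  · left
    rwa [mem_LBB71, cj_cj h2] at h3
  · right
    intro y hy
    have e1 := hI'.comm D.isI (a := cj B Bi y) (by rw [mem_LBB71, cj_cj h2]; exact hy) h3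
    have e2 := congrArg (cj Bi B) e1
    rw [← cj_mul h1, ← cj_mul h1, cj_cj h2, cj_cj h2] at e2
    exact e2.symm

/-- no factorisation, without a form -/
theorem nfc_U43 (t : ℝ) (hw : ∀ μ : ℝ, E μ ≠ 0 → ∃ p : ℤ, μ = p - t) {h0 : Matrix n n ℂ} {E0 : ℝ → Matrix n n ℂ}
    {Λ0 : Finset ℝ} (hE0 : SD h0 E0 Λ0)
    (hI : ∀ f g : ℤ →₀ ℕ, (∀ p : ℤ, (E (p - t)).rank = f.sum fun i x => x * g (p - i)) →
      (∀ μ, (g.sum fun _ x => x) ∣ (E0 μ).rank) → g.support.card ≤ 1) : Nfc L h0 h := by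
  classical
  obtain ⟨B, Bi, h1, h2, D⟩ := exists_datU43 hbr hirr htr hh hE
  have hEE : ∀ μ, E μ * E μ = E μ := fun μ => by rw [hE.mul, if_pos rfl]
  have hEE0 : ∀ μ, E0 μ * E0 μ = E0 μ := fun μ => by rw [hE0.mul, if_pos rfl]
  have r1 : ∀ μ, (cj B Bi (E μ)).rank = (E μ).rank := fun μ => rank_cj h1 h2 (hEE μ)
  intro K hK hid h0K T hT
  have hI' := D.isI_ofU (K := LBB71 K B Bi) (fun x hx => hK hx) (by
    intro X hX Y hY
    rw [mem_LBB71, cj_sub, ← cj_mul h1, ← cj_mul h1]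
    exact hid _ (mem_LBB71.1 hX) _ (mem_LBB71.1 hY))
  have key := NI.dichU43 D.spec (Algebra.adjoin ℂ (LBB71 K B Bi : Set (Matrix n n ℂ))) (fun a ha => Dat.adj_star hI'.st ha)
    (fun a ha hc => D.adj_cenU hI' ha hc) (fun a ha => DatU.adj_nrmU hI' D.mem ha) t
    (fun μ hμ => hw μ fun h0 => hμ (by rw [h0, cj_zero])) (fun f g hfg hdv => hI f g (fun p => by
      rw [← r1]
      exact hfg p) fun μ => by
      have e1 := hdv (cj B Bi (E0 μ)) (by
        intro Z hZ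
        have e2 := hZ (cj B Bi h0) (Algebra.subset_adjoin (by
          change cj B Bi h0 ∈ LBB71 K B Bi
          rw [mem_LBB71, cj_cj h2]
          exact h0K))
        have e3 := congrArg (cj Bi B) e2
        rw [← cj_mul h1, ← cj_mul h1, cj_cj h2] at e3
        have e4 := congrArg (cj B Bi) (hE0.comm43 e3 μ)
        rwa [← cj_mul h2, ← cj_mul h2, cj_cj h1] at e4) (by rw [cj_mul h2, hEE0])
      rwa [rank_cj h1 h2 (hEE0 μ)] at e1)
  have e1 := key (cj B Bi T) (fun a ha => (Dat.adj_comm (w := cj B Bi T) (fun b hb => by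
    have e2 := hT _ (mem_LBB71.1 hb)
    have e3 := congrArg (cj B Bi) e2
    rw [← cj_mul h2, ← cj_mul h2, cj_cj h1] at e3
    exact e3.symm) ha).symm)
  have e2 := congrArg (cj Bi B) e1
  rwa [← cj_mul h1, ← cj_mul h1, cj_cj h2, cj_cj h2] at e2

end U

section W

variable [Nonempty n] {Q' Qi : Matrix n n ℂ} (hQs : Q'ᵀ = Q' ∨ Q'ᵀ = -Q') (hQ1 : Q' * Qi = 1) (hQ2 : Qi * Q' = 1)
  (hbr : ∀ X ∈ L, ∀ Y ∈ L, X * Y - Y * X ∈ L)
  (hirr : ∀ W : Submodule ℂ (n → ℂ), (∀ X ∈ L, ∀ w ∈ W, X *ᵥ w ∈ W) → W = ⊥ ∨ W = ⊤)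
  (htr : ∀ X ∈ L, X.trace = 0) (hsk : ∀ X ∈ L, Xᵀ * Q' + Q' * X = 0)
  {h : Matrix n n ℂ} (hh : h ∈ L) {E : ℝ → Matrix n n ℂ} {Λ : Finset ℝ} (hE : SD h E Λ)
include hQs hQ1 hQ2 hbr hirr htr hsk hh hE

/-- coordinates in which `L` is closed under the adjoint and `h` is self-adjoint, with the form -/
theorem exists_dat43 : ∃ (B Bi F Fi : Matrix n n ℂ) (c : ℂ) (τ : Matrix n n ℂ →ₗ[ℂ] Matrix n n ℂ), B * Bi = 1 ∧ Bi * B = 1 ∧
    F * Fi = 1 ∧ Fi * F = 1 ∧ c * c = 1 ∧ Fᵀ = c • F ∧ (∀ x, τ x = Fi * xᵀ * F) ∧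
    Dat τ (LBB71 L B Bi) (cj B Bi h) (fun μ => cj B Bi (E μ)) Λ := by
  obtain ⟨c0, hc0, hQs'⟩ : ∃ c0 : ℂ, c0 * c0 = 1 ∧ Q'ᵀ = c0 • Q' := by
    rcases hQs with h | h
    · exact ⟨1, by norm_num, by rw [h, one_smul]⟩
    · exact ⟨-1, by norm_num, by rw [h, neg_one_smul]⟩
  obtain ⟨B, Bi, h1, h2, h3, h4⟩ := exists_herm L hbr hirr htr hh hE
  obtain ⟨D, f1, f2, hF⟩ := dat_gen14 hc0 hQs' hQ1 hQ2 hbr (fun T hT => schur98 L hirr hT) hsk hh hE h1 h2 h3 h4
  exact ⟨B, Bi, _, _, c0, _, h1, h2, f1, f2, hc0, hF, fun x => rfl, D⟩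

/-- the dichotomy, with a form -/
theorem dch_W43 {w : ℤ} (hw : ∀ μ : ℝ, E μ ≠ 0 → ∃ p : ℤ, μ = ((2 * p - w : ℤ) : ℝ))
    (hI : NI.Indec w (fun p : ℤ => (E ((2 * p - w : ℤ) : ℝ)).rank)) : Dch L h := by
  classical
  obtain ⟨B, Bi, F, Fi, c, τ, h1, h2, f1, f2, hc, hF, hτ, D⟩ := exists_dat43 hQs hQ1 hQ2 hbr hirr htr hsk hh hE
  have hEE : ∀ μ, E μ * E μ = E μ := fun μ => by rw [hE.mul, if_pos rfl]
  have r1 : ∀ μ, (cj B Bi (E μ)).rank = (E μ).rank := fun μ => rank_cj h1 h2 (hEE μ)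
  intro K hK hid
  have hI' := D.isI_of (K := LBB71 K B Bi) (fun x hx => hK hx) (by
    intro X hX Y hY
    rw [mem_LBB71, cj_sub, ← cj_mul h1, ← cj_mul h1]
    exact hid _ (mem_LBB71.1 hX) _ (mem_LBB71.1 hY))
  rcases D.h_mem_orW f1 f2 hc hF hτ (fun μ hμ => hw μ fun h0 => hμ (by rw [h0, cj_zero])) (by simp only [r1]; exact hI)
    hI' with h3 | h3
  · left
    rwa [mem_LBB71, cj_cj h2] at h3
  · right
    intro y hy
    have e1 := hI'.comm D.isI (a := cj B Bi y) (by rw [mem_LBB71, cj_cj h2]; exact hy) h3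
    have e2 := congrArg (cj Bi B) e1
    rw [← cj_mul h1, ← cj_mul h1, cj_cj h2, cj_cj h2] at e2
    exact e2.symm

/-- no factorisation, with a form -/
theorem nfc_W43 {w : ℤ} (hw : ∀ μ : ℝ, E μ ≠ 0 → ∃ p : ℤ, μ = ((2 * p - w : ℤ) : ℝ)) {h0 : Matrix n n ℂ}
    {E0 : ℝ → Matrix n n ℂ} {Λ0 : Finset ℝ} (hE0 : SD h0 E0 Λ0)
    (hI : ∀ (a : ℤ) (f g : ℤ →₀ ℕ), (∀ j, f (a - j) = f j) → (∀ j, g (w - a - j) = g j) →
      (∀ p : ℤ, (E ((2 * p - w : ℤ) : ℝ)).rank = f.sum fun i x => x * g (p - i)) →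
      (∀ μ, (g.sum fun _ x => x) ∣ (E0 μ).rank) → g.support.card ≤ 1) : Nfc L h0 h := by
  classical
  obtain ⟨B, Bi, F, Fi, c, τ, h1, h2, f1, f2, hc, hF, hτ, D⟩ := exists_dat43 hQs hQ1 hQ2 hbr hirr htr hsk hh hE
  have hEE : ∀ μ, E μ * E μ = E μ := fun μ => by rw [hE.mul, if_pos rfl]
  have hEE0 : ∀ μ, E0 μ * E0 μ = E0 μ := fun μ => by rw [hE0.mul, if_pos rfl]
  have r1 : ∀ μ, (cj B Bi (E μ)).rank = (E μ).rank := fun μ => rank_cj h1 h2 (hEE μ)
  intro K hK hid h0K T hT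
  have hI' := D.isI_of (K := LBB71 K B Bi) (fun x hx => hK hx) (by
    intro X hX Y hY
    rw [mem_LBB71, cj_sub, ← cj_mul h1, ← cj_mul h1]
    exact hid _ (mem_LBB71.1 hX) _ (mem_LBB71.1 hY))
  have hτA : ∀ a ∈ Algebra.adjoin ℂ (LBB71 K B Bi : Set (Matrix n n ℂ)),
      Fi * aᵀ * F ∈ Algebra.adjoin ℂ (LBB71 K B Bi : Set (Matrix n n ℂ)) := by
    intro a ha
    rw [← hτ]
    induction ha using Algebra.adjoin_induction with
    | mem y hy =>
      rw [D.sk y (hI'.le hy)]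
      exact neg_mem (Algebra.subset_adjoin hy)
    | algebraMap c =>
      rw [Algebra.algebraMap_eq_smul_one, map_smul, D.inv.one]
      exact Subalgebra.smul_mem _ (one_mem _) _
    | add y z _ _ hy hz => rw [map_add]; exact add_mem hy hz
    | mul y z _ _ hy hz => rw [D.inv.mul]; exact mul_mem hz hy
  have hcast : ∀ p : ℤ, (2 * (p : ℝ) - (w : ℝ)) = ((2 * p - w : ℤ) : ℝ) := fun p => by push_cast; ring
  have key := NI.dichS43 D.spec (Algebra.adjoin ℂ (LBB71 K B Bi : Set (Matrix n n ℂ))) (fun a ha => Dat.adj_star hI'.st ha)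
    (fun a ha hc => D.adj_cen hI' ha hc) (fun a ha => Dat.adj_nrm hI' D.mem ha) f1 f2 hc hF hτA (by
      rw [← hτ, D.sk _ D.mem]) w
    (fun μ hμ => by
      obtain ⟨p, hp⟩ := hw μ fun h0 => hμ (by rw [h0, cj_zero])
      exact ⟨p, by rw [hp, hcast]⟩) (fun a f g hf hg hfg hdv => hI a f g hf hg (fun p => by
      rw [← r1, ← hcast]
      exact hfg p) fun μ => by
      have e1 := hdv (cj B Bi (E0 μ)) (by
        intro Z hZ
        have e2 := hZ (cj B Bi h0) (Algebra.subset_adjoin (by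
          change cj B Bi h0 ∈ LBB71 K B Bi
          rw [mem_LBB71, cj_cj h2]
          exact h0K))
        have e3 := congrArg (cj Bi B) e2
        rw [← cj_mul h1, ← cj_mul h1, cj_cj h2] at e3
        have e4 := congrArg (cj B Bi) (hE0.comm43 e3 μ)
        rwa [← cj_mul h2, ← cj_mul h2, cj_cj h1] at e4) (by rw [cj_mul h2, hEE0])
      rwa [rank_cj h1 h2 (hEE0 μ)] at e1)
  have e1 := key (cj B Bi T) (fun a ha => (Dat.adj_comm (w := cj B Bi T) (fun b hb => by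
    have e2 := hT _ (mem_LBB71.1 hb)
    have e3 := congrArg (cj B Bi) e2
    rw [← cj_mul h2, ← cj_mul h2, cj_cj h1] at e3
    exact e3.symm) ha).symm)
  have e2 := congrArg (cj Bi B) e1
  rwa [← cj_mul h1, ← cj_mul h1, cj_cj h2, cj_cj h2] at e2

end W

end MH
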