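import Pool.Agent.Helper43.BL2.Ns
import Pool.Agent.Helper98.BL2.Dom
import Pool.Agent.Helper98.BL2.DomM
import Pool.Agent.Helper81.BL2.Num

/-!
Project BL2 (MP_b8862a_ag): the type of a block, from a family of Hodge-Tate decompositions.
-/

set_option linter.unusedSectionVars false
set_option linter.unusedVariables false

open Matrix Module GH OW

namespace MH

variable {n : Type*} [Fintype n] [DecidableEq n]
variable {w : ℤ} {Q : Matrix n n ℚ} {S : Finset ℤ} {P : ℤ → Matrix n n ℂ} {Γ : Subgroup (GL n ℂ)}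
variable {r : ℕ} {W : Matrix n (Fin r) ℂ} {V : Matrix (Fin r) n ℂ} {e : Matrix n n ℂ}
variable {ι : Type*} {T : ι → Finset ℤ} {R : ι → ℤ → Matrix n n ℂ}

theorem OrthB.self43 (h : OrthB Q P e) : SelfB Q P e := by
  obtain ⟨x, hx, -, h0⟩ := h
  exact ⟨x, hx, h0⟩

/-- The condition on a block at one Hodge-Tate decomposition. -/
def CaseN (w : ℤ) (Q : Matrix n n ℚ) (P : ℤ → Matrix n n ℂ) (r : ℕ) (S1 : Finset ℤ) (R1 : ℤ → Matrix n n ℂ)
    (e : Matrix n n ℂ) : Prop :=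
  (SelfB Q P e ∧ CrW w r (fun p => (e * R1 p).rank)) ∨ CrUP r (fun p => (e * R1 p).rank) ∨
    (∃ m : ℤ, w = 2 * m ∧ OrthB Q P e ∧ CrO w r (fun p => (e * R1 p).rank)) ∨ DomR w Q P S1 R1 e

/-- **the type of a block** -/
theorem IsHF.tyN43 (H : IsHW w Q S P) (F : IsHF w Q P Γ T R) (G : IsGalU w Q S P Γ) (he : IsBlk P e) (hVW : V * W = 1)
    (hWV : W * V = e) (hr : 2 ≤ r) {i0 : ι} (hC : CaseN w Q P r (T i0) (R i0) e)
    (hN : (∀ i, NoF (fun p => (e * R i0 p).rank) (fun p => (e * R i p).rank)) ∨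
      SelfB Q P e ∧ ∀ i, NoFS w (fun p => (e * R i0 p).rank) (fun p => (e * R i p).rank)) : TyN (cpS W V (LG Γ)) := by
  classical
  have hne : Nonempty (Fin r) := ⟨⟨0, by omega⟩⟩
  have hr' : 0 < r := by omega
  have hre := _root_.MH.blk_rank he hVW hWV
  have hirr := F.irr43 G he hVW hWV
  have hns := F.ns_of43 H G he hVW hWV hr hN
  have hR1 := F.ht i0
  obtain ⟨A, C⟩ := G.exists_CR hR1 he hVW hWV
  rcases hC with ⟨hO, hI, h9, hcore⟩ | hcr | ⟨m, hm, hO, hI, h9, hcore⟩ | hD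
  · -- self-dual, the core statement
    obtain ⟨t, ht, hDch⟩ := dch_blkW H G he hVW hWV hirr hr' hO hR1 hI
    have hs := F.smp43 H G he hVW hWV hr ht hDch hN
    obtain ⟨x, hx, hx0⟩ := hO
    exact IsGalU.full_core43 H G he hVW hWV hirr h9 hs hx hx0 hR1 (Or.inl (hcore hns))
  · -- no form
    obtain ⟨t, ht, hDch⟩ := dch_blkU G he hVW hWV hirr hr' hR1 hcr.1
    have hs := F.smp43 H G he hVW hWV hr ht hDch hN
    exact IsGalU.full_coreUP43 H G he hVW hWV hirr hs hR1 hns hcr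
  · -- orthogonal type
    obtain ⟨t, ht, hDch⟩ := dch_blkW H G he hVW hWV hirr hr' hO.self43 hR1 hI
    have hs := F.smp43 H G he hVW hWV hr ht hDch hN
    have hQs : (toC Q)ᵀ = toC Q := by
      rw [H.Q_symm, hm, _root_.zpow_mul]
      norm_num
    obtain ⟨x, hx, hxs, hx0⟩ := hO
    exact IsGalU.full_core43 H G he hVW hWV hirr h9 hs hx hx0 hR1 (Or.inr ⟨hxs, hQs, hcore hns⟩)
  · rcases hD with ⟨p, hp⟩ | ⟨m, hm, hO, hDM⟩
    · -- one large number
      rw [hre] at hp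
      obtain ⟨t, ht, hDch⟩ := dch_blkU G he hVW hWV hirr hr' hR1
        (indecU_dom (S := T i0) (r := r) (fun q hq => C.supp_rank43 hq) C.sum_rank43 hp)
      have hs := F.smp43 H G he hVW hWV hr ht hDch hN
      obtain ⟨t', E, Λ, ht', hSD, hint, hEr⟩ := exists_sh43 G he hVW hWV hr' hR1
      have h1 := tyN_domG_smp hr (T0_br G he hVW hWV) (T0_irr hr' hirr) (fun X hX => (mem_T0.1 hX).2) hs ht'
        (sh_ne43 G he hVW hWV hr' hR1 hns t') hSD (μ := p - t') (by rw [hEr]; exact hp)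
      rwa [T0_sup hr'] at h1
    · -- dominating middle number
      rcases hDM with hD1 | ⟨hD1, hD2⟩
      · exact absurd (by rw [hD1, hre]) (hns m)
      obtain ⟨t, ht, hDch⟩ := dch_blkW H G he hVW hWV hirr hr' hO.self43 hR1 (by
        rw [hm]
        exact indec_domM (S := T i0) (fun q hq => C.supp_rank43 hq) hD1 hD2)
      have hs := F.smp43 H G he hVW hWV hr ht hDch hN
      have hQs : (toC Q)ᵀ = toC Q := by
        rw [H.Q_symm, hm, _root_.zpow_mul]
        norm_num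
      obtain ⟨x, hx, hxs, hx0⟩ := hO
      obtain ⟨F', Fi, hF, hF1, hF2, hFs, hFL, hFh⟩ := G.exists_form43 H he hVW hWV hirr hr' hx hx0
      have hFs' : F'ᵀ = F' := by
        rw [hF, Matrix.transpose_mul, Matrix.transpose_mul, Matrix.transpose_transpose, Matrix.transpose_mul, hQs, hxs,
          ← Matrix.mul_assoc]
      obtain ⟨E1, Λ1, k1, k2, k3, k4⟩ := exists_shW43 G he hVW hWV hr' hF1 hF2 hR1 (hFh _ _ hR1) ht
      have htm : (t : ℂ) = (m : ℂ) := by
        rw [hm] at k4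
        push_cast at k4
        exact mul_left_cancel₀ two_ne_zero k4
      rw [htm] at ht
      obtain ⟨E, Λ, hSD, hE, hΛ⟩ := C.exists_sd m
      obtain ⟨hsum, h0⟩ := C.sums hE hΛ
      have hsk : ∀ X ∈ T0 (cpS W V (LG Γ)), Xᵀ * F' + F' * X = 0 := fun X hX => T0_skew hr' hF1 hF2 hFL hX
      have h6 : sB m (T i0) (R i0) e = ∑ p ∈ (T i0).filter (fun p => m < p), (e * R i0 p).rank := rfl
      have hr9 : 9 ≤ r := by
        have h5 := hSD.card_ge98 hF1 hF2 (hsk _ ht)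
        rw [Fintype.card_fin, h0, hsum, ← h6] at h5
        have h4 : 2 ^ 2 ≤ sB m (T i0) (R i0) e ^ 2 := Nat.pow_le_pow_left hD1 2
        omega
      have hfull : ∀ X : Matrix (Fin r) (Fin r) ℂ, Xᵀ * F' + F' * X = 0 → X ∈ cpS W V (LG Γ) := by
        intro X hX
        exact (mem_T0.1 (full_domM_smp F' Fi hFs' hF1 hF2 _ (T0_br G he hVW hWV) (T0_irr hr' hirr) hsk ht hSD
          (by rw [hsum, ← h6]; exact hD1) (by rw [hsum, ← h6, h0]; exact hD2) hs hX)).1
      refine ⟨Or.inr ⟨F', hFs, ⟨⟨F', Fi, hF1, hF2⟩, rfl⟩, hfull, hFL⟩, Or.inr ?_⟩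
      rw [Fintype.card_fin]
      exact hr9

end MH
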