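import Pool.Agent.Helper43.BL2.Fam
import Pool.Agent.Helper81.AT.FullAt

/-!
Project BL2 (MP_b8862a_ag): the type of a block, from the conjugate Hodge numbers.
-/

set_option linter.unusedSectionVars false
set_option linter.unusedVariables false

open Matrix Module GH OW

namespace MH

variable {n : Type*} [Fintype n] [DecidableEq n]
variable {w : ℤ} {Q : Matrix n n ℚ} {S : Finset ℤ} {P : ℤ → Matrix n n ℂ} {Γ : Subgroup (GL n ℂ)}
variable {r : ℕ} {W : Matrix n (Fin r) ℂ} {V : Matrix (Fin r) n ℂ} {e : Matrix n n ℂ}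
variable {ι : Type*} {T : ι → Finset ℤ} {R : ι → ℤ → Matrix n n ℂ}

/-- The condition on the conjugate by `σ` of the block `e`. -/
def GoodB (E E' : Set ℕ) (w : ℤ) (Q : Matrix n n ℚ) (S : Finset ℤ) (P : ℤ → Matrix n n ℂ) (e : Matrix n n ℂ)
    (σ : ℂ ≃+* ℂ) : Prop :=
  ThreeC w Q P e (e.map σ) ∨ RankB E E' w Q P e σ ∨ DomB w Q S P (e.map σ)

/-- three Hodge numbers -/
theorem crO_three43 (H : IsHW w Q S P) (G : IsGalU w Q S P Γ) (F : IsHF w Q P Γ T R) {s : ι → (ℂ ≃+* ℂ)}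
    (hs : ∀ i, IsHTs w Q S P Γ (s i).symm (T i) (R i)) (he : IsBlk P e) (hVW : V * W = 1) (hWV : W * V = e) (hr : 2 ≤ r)
    {i0 : ι} (hns : ∀ p, (e * R i0 p).rank ≠ r) (hT : ThreeC w Q P e (e.map (s i0))) :
    ∃ m : ℤ, w = 2 * m ∧ OrthB Q P e ∧ CrO w r (fun p => (e * R i0 p).rank) := by
  obtain ⟨h9, hO, m, k', hm, h0', hh', hx'⟩ := hT
  have hre := _root_.MH.blk_rank he hVW hWV
  have hirr := F.irr43 G he hVW hWV
  have hnum : ∀ p, (e * R i0 p).rank = (e.map (s i0) * P p).rank := fun p => by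
    rw [(hs i0).rank e he p, H.rank_symm43 he]
  have hsy : ∀ k : ℤ, (e.map (s i0) * P (m - k)).rank = (e.map (s i0) * P (m + k)).rank := by
    intro k
    have h1 := pal43 H G he hVW hWV hirr (by omega) hO.self43 (F.ht i0) (m + k)
    rw [hnum, hnum, hm, show 2 * m - (m + k) = m - k by ring] at h1
    exact h1
  obtain ⟨k, hk0, h0, hx⟩ : ∃ k : ℤ, 0 ≤ k ∧ (∀ p, p ≠ m + k → p ≠ m → p ≠ m - k → e.map (s i0) * P p = 0) ∧
      ¬ LT.Exc (e.map (s i0) * P (m + k)).rank (e.map (s i0) * P m).rank := by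
    rcases le_total 0 k' with h1 | h1
    · exact ⟨k', h1, h0', hx'⟩
    · refine ⟨-k', by omega, fun p p1 p2 p3 => h0' p (by omega) p2 (by omega), ?_⟩
      rw [← sub_eq_add_neg, hsy k']
      exact hx'
  have hr0 : ∀ p, p ≠ m + k → p ≠ m → p ≠ m - k → (e.map (s i0) * P p).rank = 0 := fun p p1 p2 p3 => by
    rw [h0 p p1 p2 p3, Matrix.rank_zero]
  have hsum : e.rank = ∑ p ∈ S, (e.map (s i0) * P p).rank := by
    rw [H.sum_blk14 (he.aut (s i0)), rank_aut _ he.idem]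
  -- not in one degree
  have one : ¬ ∀ p, p ≠ m → (e.map (s i0) * P p).rank = 0 := by
    intro h1
    apply hns m
    rw [hnum, ← hre, hsum]
    by_cases hm' : m ∈ S
    · rw [Finset.sum_eq_single m (fun p _ hp => h1 p hp) (fun h => absurd hm' h)]
    · rw [Finset.sum_eq_zero fun p hp => h1 p (fun h => hm' (h ▸ hp))]
      rw [H.supp m hm', Matrix.mul_zero, Matrix.rank_zero]
  have hk : k ≠ 0 := by
    rintro rfl
    exact one fun p hp => hr0 p (by omega) hp (by omega)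
  have hkp : 0 < k := by omega
  have hN : Num3 m (e.map (s i0) * P (m + k)).rank (e.map (s i0) * P m).rank (fun p => (e.map (s i0) * P p).rank) :=
    ⟨k, hkp, rfl, rfl, hsy k, hr0⟩
  have hsum3 := rank_num3 H (he.aut (s i0)) hN
  rw [rank_aut _ he.idem, hre] at hsum3
  have ht : (e.map (s i0) * P (m + k)).rank ≠ 0 := by
    intro h1
    refine one fun p hp => ?_
    by_cases hp1 : p = m + k
    · rw [hp1, h1]
    · by_cases hp2 : p = m - k
      · rw [hp2, hsy k, h1]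
      · exact hr0 p hp1 hp hp2
  have hh : (e.map (s i0) * P m).rank ≠ 0 := fun h1 => hh' (rank_eq_zero98 h1)
  refine ⟨m, hm, hO, ?_⟩
  have hf : (fun p => (e * R i0 p).rank) = fun p => (e.map (s i0) * P p).rank := funext hnum
  rw [hf, hm]
  refine goodL_exc m r _ _ _ hN hsum3 (by omega) ?_
  rintro (h1 | h1 | h1)
  · exact ht h1
  · exact hh h1
  · exact hx h1

/-- **the type of a block** -/
theorem tyN_good43 {E E' : Set ℕ} (hE : ExP E)
    (hU : ∀ (r : ℕ) (h : ℤ → ℕ), r ∉ E' → IndecU h → ¬ Arith r h → CrUP r h)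
    (H : IsHW w Q S P) (G : IsGalU w Q S P Γ) (F : IsHF w Q P Γ T R) {s : ι → (ℂ ≃+* ℂ)}
    (hs : ∀ i, IsHTs w Q S P Γ (s i).symm (T i) (R i)) (he : IsBlk P e) (hVW : V * W = 1) (hWV : W * V = e) (hr : 2 ≤ r)
    {i0 : ι} (hst : StarB w Q P e (s i0)) (hg : GoodB E E' w Q S P e (s i0)) : TyN (cpS W V (LG Γ)) := by
  have hre := _root_.MH.blk_rank he hVW hWV
  have hnum : ∀ i, (fun p => (e * R i p).rank) = fun p => (e.map (s i) * P p).rank := fun i => by
    funext p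
    rw [(hs i).rank e he p, H.rank_symm43 he]
  have hN : (∀ i, NoF (fun p => (e * R i0 p).rank) (fun p => (e * R i p).rank)) ∨
      SelfB Q P e ∧ ∀ i, NoFS w (fun p => (e * R i0 p).rank) (fun p => (e * R i p).rank) := by
    rcases hst with h1 | ⟨h1, h2⟩
    · left
      intro i
      rw [hnum, hnum]
      exact h1 (s i)
    · right
      refine ⟨h1, fun i => ?_⟩
      rw [hnum, hnum]
      exact h2 (s i)
  have hns := F.ns_of43 H G he hVW hWV hr hN
  refine F.tyN43 H G he hVW hWV hr (i0 := i0) ?_ hN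
  rcases hg with h3 | ⟨hI, hA⟩ | hD
  · exact Or.inr (Or.inr (Or.inl (crO_three43 H G F hs he hVW hWV hr hns h3)))
  · rw [← hnum i0, hre] at hA
    rcases hI with ⟨hSB, hr', hI⟩ | ⟨hr', hI⟩
    · left
      rw [← hnum i0] at hI
      rw [hre] at hr'
      exact ⟨hSB, hE.crW hr' hI hA⟩
    · right
      left
      rw [← hnum i0] at hI
      rw [hre] at hr'
      exact hU _ _ hr' hI hA
  · exact Or.inr (Or.inr (Or.inr ((hs i0).domR_one43 H he hD)))

/-- the Mumford-Tate group with the conjugates of the Hodge decomposition -/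
theorem IsHW.isHF43 (H : IsHW w Q S P) : IsHF w Q P (MT S P) (fun _ : ℂ ≃+* ℂ => S) (fun σ p => (P p).map σ.symm) where
  ht σ := H.isHTw_MT σ.symm
  com X hX := by
    refine H.descent fun σ => ?_
    have h1 := hX σ.symm
    rw [hR, RingEquiv.symm_symm] at h1
    rw [H.hwσ, mul_sub, sub_mul, mul_smul_comm, smul_mul_assoc, mul_smul_comm, smul_mul_assoc, mul_one, one_mul]
    have h2 : (∑ p ∈ S, (p : ℂ) • P p).map σ = ∑ p ∈ S, (p : ℂ) • (P p).map σ := by
      ext i j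
      simp [Matrix.sum_apply, map_sum]
    rw [h2, h1]

theorem IsHW.isHTs43 (H : IsHW w Q S P) (σ : ℂ ≃+* ℂ) : IsHTs w Q S P (MT S P) σ S (fun p => (P p).map σ) where
  toIsHTw := H.isHTw_MT σ
  rank _ _ _ := rfl

/-- **the type of a block, for the Mumford-Tate group** -/
theorem IsHW.tyBN_star43 {E E' : Set ℕ} (hE : ExP E)
    (hU : ∀ (r : ℕ) (h : ℤ → ℕ), r ∉ E' → IndecU h → ¬ Arith r h → CrUP r h)
    (H : IsHW w Q S P) (he : IsBlk P e) (hr2 : 2 ≤ e.rank) {σ : ℂ ≃+* ℂ} (hst : StarB w Q P e σ)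
    (hg : GoodB E E' w Q S P e σ) : TyBN Q S P e := by
  obtain ⟨r, W, V, hVW, hWV⟩ := exists_coord48 he.idem
  have hre : e.rank = r := _root_.MH.blk_rank he hVW hWV
  have h1 := tyN_good43 hE hU H H.isGalU_MT H.isHF43 (s := fun σ => σ) (fun σ => H.isHTs43 σ.symm) he hVW hWV
    (by omega) (i0 := σ) hst hg
  rw [H.cpS_LG_MT hVW] at h1
  exact ⟨r, W, V, hVW, hWV, h1⟩

end MH
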