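import Pool.Agent.Helper43.BL2.Blk

/-!
Project BL2 (MP_b8862a_ag): groups generated by their Hodge cocharacters.
-/

set_option linter.unusedSectionVars false
set_option linter.unusedVariables false

open Matrix Module GH OW

namespace MH

variable {n : Type*} [Fintype n] [DecidableEq n]
variable {w : ℤ} {Q : Matrix n n ℚ} {S : Finset ℤ} {P : ℤ → Matrix n n ℂ} {Γ : Subgroup (GL n ℂ)}

theorem IsGalG.toA (G : IsGalG w Q S P Γ) : IsGalA w Q S P Γ where
  sim := G.sim
  semi := G.semi
  conj := G.conj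
  abel a b t h _ := G.gen a b t h

/-- what commutes with the Hodge-Tate element commutes with the projections -/
theorem comm_R43 {S' : Finset ℤ} {R : ℤ → Matrix n n ℂ} (hR : IsHTw w Q S' Γ R) {X : Matrix n n ℂ}
    (hX : X * MH.hR S' R = MH.hR S' R * X) (p : ℤ) : X * R p = R p * X := by
  classical
  have hl : ∀ p, MH.hR S' R * R p = (p : ℂ) • R p := by
    intro p
    rw [MH.hR, Finset.sum_mul]
    by_cases hp : p ∈ S'
    · rw [Finset.sum_eq_single_of_mem p hp]
      · rw [smul_mul_assoc, hR.mul, if_pos rfl]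
      · intro q _ hq
        rw [smul_mul_assoc, hR.mul, if_neg hq, smul_zero]
    · rw [hR.supp p hp, smul_zero]
      exact Finset.sum_eq_zero fun q _ => mul_zero _
  have hr : ∀ p, R p * MH.hR S' R = (p : ℂ) • R p := by
    intro p
    rw [MH.hR, Finset.mul_sum]
    by_cases hp : p ∈ S'
    · rw [Finset.sum_eq_single_of_mem p hp]
      · rw [mul_smul_comm, hR.mul, if_pos rfl]
      · intro q _ hq
        rw [mul_smul_comm, hR.mul, if_neg (Ne.symm hq), smul_zero]
    · rw [hR.supp p hp, smul_zero]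
      exact Finset.sum_eq_zero fun q _ => zero_mul _
  have key : ∀ p q : ℤ, p ≠ q → R q * X * R p = 0 := by
    intro p q hpq
    have e1 : R q * (X * MH.hR S' R) * R p = (p : ℂ) • (R q * X * R p) := by
      rw [← mul_assoc, mul_assoc (R q * X), hl, mul_smul_comm]
    have e2 : R q * (MH.hR S' R * X) * R p = (q : ℂ) • (R q * X * R p) := by
      rw [← mul_assoc, hr, smul_mul_assoc, smul_mul_assoc]
    rw [hX, e2] at e1
    have e3 : ((q : ℂ) - p) • (R q * X * R p) = 0 := by rw [sub_smul, e1, sub_self]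
    rcases smul_eq_zero.1 e3 with e4 | e4
    · exact absurd (by exact_mod_cast (sub_eq_zero.1 e4).symm) hpq
    · exact e4
  by_cases hp : p ∈ S'
  · have e1 : X * R p = R p * X * R p := by
      conv_lhs => rw [← one_mul (X * R p), ← hR.sum, Finset.sum_mul]
      rw [Finset.sum_eq_single_of_mem p hp]
      · rw [mul_assoc]
      · intro q _ hq
        rw [← mul_assoc, key p q (Ne.symm hq)]
    have e2 : R p * X = R p * X * R p := by
      conv_lhs => rw [← mul_one (R p * X), ← hR.sum, Finset.mul_sum]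
      rw [Finset.sum_eq_single_of_mem p hp]
      intro q _ hq
      exact key q p hq
    rw [e1, ← e2]
  · rw [hR.supp p hp, mul_zero, zero_mul]

/-- the commutant of the Hodge-Tate decompositions -/
theorem IsGalG.com43 (H : IsHW w Q S P) (G : IsGalG w Q S P Γ) (hT : IsTateN S P Γ) {X : Matrix n n ℂ}
    (hX : ∀ (σ : ℂ ≃+* ℂ) (S' : Finset ℤ) (R : ℤ → Matrix n n ℂ), IsHTs w Q S P Γ σ S' R →
      X * hR S' R = hR S' R * X) : X ∈ EC P := by
  classical
  have h1 : IsTateTensor Γ 1 1 (t11 X) := by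
    refine G.gen 1 1 _ fun σ S' R hR z hz => ?_
    have hc : ∀ p, X * R p = R p * X := comm_R43 hR.toIsHTw (hX σ S' R hR)
    rw [slot11]
    congr 1
    have h2 : (∑ p ∈ S', z ^ p • R p) * X = X * ∑ p ∈ S', z ^ p • R p := by
      rw [Finset.sum_mul, Finset.mul_sum]
      refine Finset.sum_congr rfl fun p _ => ?_
      rw [smul_mul_assoc, mul_smul_comm, hc]
    rw [h2, mul_assoc]
    have h3 : (∑ p ∈ S', z ^ p • R p) * (∑ p ∈ S', z⁻¹ ^ p • R p) = 1 := by
      rw [← hR.sum, Finset.sum_mul]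
      refine Finset.sum_congr rfl fun p hp => ?_
      rw [Finset.mul_sum, Finset.sum_eq_single_of_mem p hp]
      · rw [smul_mul_assoc, mul_smul_comm, hR.mul, if_pos rfl, smul_smul, _root_.inv_zpow, mul_inv_cancel₀ (zpow_ne_zero _ hz),
          one_smul]
      · intro q _ hq
        rw [smul_mul_assoc, mul_smul_comm, hR.mul, if_neg (Ne.symm hq), smul_zero, smul_zero]
    rw [h3, mul_one]
  obtain ⟨Γ', h2, h3, h4⟩ := h1
  refine (G.toA.toN.toU H hT).cent Γ' h2 h3 X fun g hg => ?_
  have h5 := h4 g hg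
  rw [slot11] at h5
  have h6 : (g : Matrix n n ℂ) * X * ((g⁻¹ : GL n ℂ) : Matrix n n ℂ) = X := t11_inj h5
  calc (g : Matrix n n ℂ) * X = (g : Matrix n n ℂ) * X * (((g⁻¹ : GL n ℂ) : Matrix n n ℂ) * (g : Matrix n n ℂ)) := by
        rw [Units.inv_mul, mul_one]
    _ = X * (g : Matrix n n ℂ) := by rw [← mul_assoc, h6]

/-- the family of all the Hodge-Tate decompositions -/
theorem IsGalG.isHF43 (H : IsHW w Q S P) (G : IsGalG w Q S P Γ) (hT : IsTateN S P Γ) :
    IsHF w Q P Γ (ι := {x : (ℂ ≃+* ℂ) × Finset ℤ × (ℤ → Matrix n n ℂ) // IsHTs w Q S P Γ x.1.symm x.2.1 x.2.2})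
      (fun x => x.1.2.1) (fun x => x.1.2.2) where
  ht x := x.2.toIsHTw
  com X hX := G.com43 H hT fun σ S' R hR => hX ⟨(σ.symm, S', R), by rw [RingEquiv.symm_symm]; exact hR⟩

end MH
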