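import Pool.Agent.Helper43.BL2.AllDom
import Pool.Agent.Helper43.BL2.Gal
import Pool.Agent.Helper55.BL2.Low

/-!
Project BL2 (MP_b8862a_ag): the main theorem.
-/

set_option linter.unusedSectionVars false

open Matrix Module GH

namespace MH

section gen

variable {n : Type*} [Fintype n] [DecidableEq n]
variable {w : ℤ} {Q : Matrix n n ℚ} {S : Finset ℤ} {P : ℤ → Matrix n n ℂ} {Γ : Subgroup (GL n ℂ)}

theorem OkB.cases43 {E E' : Set ℕ} (H : IsHW w Q S P) {e : Matrix n n ℂ} (he : IsBlk P e) (hr2 : 2 ≤ e.rank)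
    (h : OkB E E' w Q S P e) :
    (w = 2 ∧ (∀ p, p ≠ 0 → p ≠ 1 → p ≠ 2 → P p = 0) ∧ 5 ≤ e.rank ∧ (P 2).rank ≤ 2 ∧ ¬ DualB Q P e) ∨
    ∃ σ : ℂ ≃+* ℂ, StarB w Q P e σ ∧ GoodB E E' w Q S P e σ := by
  rcases h with ⟨hw, hP, ⟨h9, hr⟩ | h5⟩ | h
  · right
    subst hw
    obtain ⟨σ, h1, h2⟩ := H.star_two43 hP he h9 hr
    exact ⟨σ, h1, Or.inr (Or.inr h2)⟩
  · exact Or.inl ⟨hw, hP, h5⟩
  · exact Or.inr h

/-- the type of a block, for the Galois group -/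
theorem IsGalG.tyN_ok43 {E E' : Set ℕ} (hE : ExP E)
    (hU : ∀ (r : ℕ) (h : ℤ → ℕ), r ∉ E' → IndecU h → ¬ Arith r h → CrUP r h)
    (H : IsHW w Q S P) (G : IsGalG w Q S P Γ) (hT : IsTateN S P Γ) {e : Matrix n n ℂ} (he : IsBlk P e)
    {r : ℕ} {W : Matrix n (Fin r) ℂ} {V : Matrix (Fin r) n ℂ} (hVW : V * W = 1) (hWV : W * V = e) (hr : 2 ≤ r)
    (h : OkB E E' w Q S P e) : TyN (cpS W V (LG Γ)) := by
  have hre : e.rank = r := _root_.MH.blk_rank he hVW hWV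
  rcases h.cases43 H he (by omega) with ⟨hw, hP, h5, hg, hD⟩ | ⟨σ, h1, h2⟩
  · subst hw
    exact IsGalG.tyN_low55 H hP hg G hT he hVW hWV (by omega) hD
  obtain ⟨S', R, hR⟩ := G.conj σ.symm
  exact tyN_good43 hE hU H (G.toA.toN.toU H hT) (G.isHF43 H hT) (s := fun x => x.1.1) (fun x => x.2) he hVW hWV hr
    (i0 := ⟨(σ, S', R), hR⟩) h1 h2

end gen

variable {n : Type} [Fintype n] [DecidableEq n]
variable {w : ℤ} {Q : Matrix n n ℚ} {S : Finset ℤ} {P : ℤ → Matrix n n ℂ}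

/-- **The main theorem.** -/
theorem master43B {E E' : Set ℕ} (hE : ExP E) (hEE : E ⊆ E')
    (hU : ∀ (r : ℕ) (h : ℤ → ℕ), r ∉ E' → IndecU h → ¬ Arith r h → CrUP r h) (hF : FullP E') (H : IsHW w Q S P)
    (hdom : ∀ e, IsBlk P e → 2 ≤ e.rank → OkB E E' w Q S P e ∨ (∃ σ : ℂ ≃+* ℂ, RankB E E' w Q P e σ) ∧
        ∀ A : Matrix n n ℚ, (∀ p, toC A * P p = P p * toC A) → ∃ c : ℚ, A = c • (1 : Matrix n n ℚ)) :
    (∀ g : GL n ℂ, InD Q S P (g : Matrix n n ℂ) → g ∈ MT S P) ∧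
    (∀ g ∈ MT S P, ∀ h ∈ MT S P, InD Q S P ((g * h * g⁻¹ * h⁻¹ : GL n ℂ) : Matrix n n ℂ)) ∧
    (SelfDual Q P → ∀ g : GL n ℂ, g ∈ MT S P ↔ InGw w Q P (g : Matrix n n ℂ)) ∧
    ∀ (ℓ : ℕ) [Fact ℓ.Prime] (ι : ℚ_[ℓ] →+* ℂ) (Γ : Subgroup (GL n ℚ_[ℓ])),
      IsGalG w Q S P (Γ.map (Matrix.GeneralLinearGroup.map ι)) →
      (∃ D : Subgroup (GL n ℚ), IsMonB Q S P D ∧ D.map (Matrix.GeneralLinearGroup.map (algebraMap ℚ ℚ_[ℓ])) ≤ Γ) ∨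
      ((∀ e, IsBlk P e → 2 ≤ e.rank → OkB E E' w Q S P e) ∧
        IsTateN S P (Γ.map (Matrix.GeneralLinearGroup.map ι))) →
      ∀ (a b : ℕ) (t : (Fin a ⊕ Fin b → n) → ℂ),
        IsTateTensor (Γ.map (Matrix.GeneralLinearGroup.map ι)) a b t ↔ MTfix S P a b t := by
  have hty : ∀ f, IsBlk P f → 2 ≤ f.rank → TyBN Q S P f := by
    intro f hf hf2
    rcases hdom f hf hf2 with h | ⟨⟨σ, h1⟩, h2⟩
    · rcases h.cases43 H hf hf2 with ⟨hw, hP, h5, hg, hD⟩ | ⟨σ, h1, h2⟩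
      · subst hw
        exact H.tyBN_low55 hP hg hf h5 hD
      · exact H.tyBN_star43 hE hU hf hf2 h1 h2
    · exact H.tyBN_atP hE hEE hF hf hf2 h1 (Or.inr h2)
  obtain ⟨k1, k2, k3, k4⟩ := at_of_tyA H hty
  refine ⟨k1, k2, k3, fun ℓ _ ι Γ G hAB => k4 _ G.toA ?_⟩
  rcases hAB with ⟨D, hD, hle⟩ | ⟨hg, hT⟩
  · refine Or.inl ⟨D, hD, ?_⟩
    refine le_trans (le_of_eq ?_) (Subgroup.map_mono hle)
    rw [mapC, Subgroup.map_map]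
    congr 1
    ext g i j
    simp [Matrix.GeneralLinearGroup.map_apply]
  · refine Or.inr ⟨hT, fun e he r W V hVW hWV hr => ?_⟩
    have hre : e.rank = r := _root_.MH.blk_rank he hVW hWV
    exact G.tyN_ok43 hE hU H hT he hVW hWV hr (hg e he (by omega))

end MH
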