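import Pool.Agent.Helper43.BL2.Typ

/-!
Project BL2 (MP_b8862a_ag): the condition implies that the numbers are not in one degree.
-/

set_option linter.unusedSectionVars false
set_option linter.unusedVariables false

open Matrix Module GH OW

namespace MH

variable {n : Type*} [Fintype n] [DecidableEq n]
variable {w : ℤ} {Q : Matrix n n ℚ} {S : Finset ℤ} {P : ℤ → Matrix n n ℂ} {Γ : Subgroup (GL n ℂ)}
variable {r : ℕ} {W : Matrix n (Fin r) ℂ} {V : Matrix (Fin r) n ℂ} {e : Matrix n n ℂ}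
variable {ι : Type*} {T : ι → Finset ℤ} {R : ι → ℤ → Matrix n n ℂ}

theorem CR.sum_rank43 {S1 : Finset ℤ} {R1 : ℤ → Matrix n n ℂ} {A : ℤ → Matrix (Fin r) (Fin r) ℂ}
    (C : CR e W V S1 R1 A) : ∑ p ∈ S1, (e * R1 p).rank = r := by
  have hAA : ∀ p, A p * A p = A p := fun p => by rw [C.mul, if_pos rfl]
  have h1 := congrArg Matrix.trace C.sum
  rw [Matrix.trace_sum, Matrix.trace_one, Fintype.card_fin, Finset.sum_congr rfl fun p _ => trace_eq_rank (hAA p)] at h1
  rw [← Finset.sum_congr rfl fun p _ => C.rank p]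
  exact_mod_cast h1

theorem CR.supp_rank43 {S1 : Finset ℤ} {R1 : ℤ → Matrix n n ℂ} {A : ℤ → Matrix (Fin r) (Fin r) ℂ}
    (C : CR e W V S1 R1 A) {p : ℤ} (hp : p ∉ S1) : (e * R1 p).rank = 0 := by
  rw [← C.rank, C.supp p hp, Matrix.rank_zero]

/-- for a member of the family the numbers are not in one degree -/
theorem IsHF.exists_ns43 (F : IsHF w Q P Γ T R) (G : IsGalU w Q S P Γ) (he : IsBlk P e) (hVW : V * W = 1)
    (hWV : W * V = e) (hr : 2 ≤ r) : ∃ i, ∀ p, (e * R i p).rank ≠ r := by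
  classical
  by_contra hcon
  push Not at hcon
  obtain ⟨c, hc⟩ := F.com_blk G he hVW hWV (Z := Matrix.single (⟨0, by omega⟩ : Fin r) (⟨1, by omega⟩ : Fin r) (1 : ℂ)) (by
    intro i
    obtain ⟨p, hp⟩ := hcon i
    obtain ⟨A, C⟩ := G.exists_CR (F.ht i) he hVW hWV
    have hAA : ∀ p, A p * A p = A p := fun p => by rw [C.mul, if_pos rfl]
    have h4 := rank_compl (hAA p)
    rw [C.rank, hp, Fintype.card_fin] at h4
    have h5 : (1 - A p).rank = 0 := by omega
    have h6 : 1 - A p = 0 := rank_eq_zero98 h5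
    have h7 : A p = 1 := (sub_eq_zero.1 h6).symm
    have h8 : V * hR (T i) (R i) * W = (p : ℂ) • (1 : Matrix (Fin r) (Fin r) ℂ) := by
      rw [C.h]
      have h9 : ∀ q, q ≠ p → A q = 0 := by
        intro q hq
        have := C.mul q p
        rwa [h7, Matrix.mul_one, if_neg hq] at this
      by_cases hpS : p ∈ T i
      · rw [Finset.sum_eq_single_of_mem p hpS fun q _ hq => by rw [h9 q hq, smul_zero], h7]
      · exfalso
        have h10 := C.supp p hpS
        rw [h7] at h10
        have h11 := congrFun (congrFun h10 ⟨0, by omega⟩) ⟨0, by omega⟩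
        rw [Matrix.one_apply_eq, Matrix.zero_apply] at h11
        exact one_ne_zero h11
    rw [h8, Matrix.mul_smul, Matrix.smul_mul, Matrix.mul_one, Matrix.one_mul])
  have h1 := congrFun (congrFun hc ⟨0, by omega⟩) ⟨1, by omega⟩
  rw [Matrix.single_apply_same, Matrix.smul_apply, Matrix.one_apply_ne (by
    intro h
    have := congrArg Fin.val h
    simp at this), smul_zero] at h1
  exact one_ne_zero h1

/-- the numbers of a self-dual block are symmetric -/
theorem pal43 (H : IsHW w Q S P) (G : IsGalU w Q S P Γ) (he : IsBlk P e) (hVW : V * W = 1) (hWV : W * V = e)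
    (hirr : ∀ U : Submodule ℂ (Fin r → ℂ), (∀ y ∈ cpL W V (LG Γ), ∀ u ∈ U, y *ᵥ u ∈ U) → U = ⊥ ∨ U = ⊤)
    (hr : 0 < r) (hO : SelfB Q P e) {S1 : Finset ℤ} {R1 : ℤ → Matrix n n ℂ} (hR1 : IsHTw w Q S1 Γ R1) (j : ℤ) :
    (e * R1 (w - j)).rank = (e * R1 j).rank := by
  obtain ⟨x, hx, hx0⟩ := hO
  obtain ⟨F, Fi, hF, hF1, hF2, hFs, hFL, hFh⟩ := G.exists_form43 H he hVW hWV hirr hr hx hx0
  obtain ⟨A, C⟩ := G.exists_CR hR1 he hVW hWV
  obtain ⟨E, Λ, hSD, hE, hΛ, hint⟩ := C.exists_sdW w
  have h1 := hSD.rank_neg98 hF1 hF2 (hFh _ _ hR1) ((2 * j - w : ℤ) : ℝ)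
  rw [hE, C.rank, show -((2 * j - w : ℤ) : ℝ) = ((2 * (w - j) - w : ℤ) : ℝ) by push_cast; ring, hE, C.rank] at h1
  exact h1

/-- **the condition implies that the numbers are not in one degree** -/
theorem IsHF.ns_of43 (H : IsHW w Q S P) (F : IsHF w Q P Γ T R) (G : IsGalU w Q S P Γ) (he : IsBlk P e) (hVW : V * W = 1)
    (hWV : W * V = e) (hr : 2 ≤ r) {i0 : ι}
    (hN : (∀ i, NoF (fun p => (e * R i0 p).rank) (fun p => (e * R i p).rank)) ∨
      SelfB Q P e ∧ ∀ i, NoFS w (fun p => (e * R i0 p).rank) (fun p => (e * R i p).rank)) (p : ℤ) :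
    (e * R i0 p).rank ≠ r := by
  classical
  intro hp
  obtain ⟨i, hi⟩ := F.exists_ns43 G he hVW hWV hr
  obtain ⟨A, C⟩ := G.exists_CR (F.ht i) he hVW hWV
  obtain ⟨A0, C0⟩ := G.exists_CR (F.ht i0) he hVW hWV
  obtain ⟨g, hg⟩ : ∃ g : ℤ →₀ ℕ, ∀ j, g j = (e * R i j).rank := by
    refine ⟨Finsupp.onFinset (T i) (fun j => (e * R i j).rank) fun j hj => ?_, fun j => rfl⟩
    by_contra h1
    exact hj (C.supp_rank43 h1)
  have hgs : (g.sum fun _ x => x) = r := by
    rw [← C.sum_rank43]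
    rw [Finsupp.sum_of_support_subset g (s := T i) (fun j hj => by
      by_contra h1
      rw [Finsupp.mem_support_iff, hg] at hj
      exact hj (C.supp_rank43 h1)) _ (fun _ _ => rfl)]
    exact Finset.sum_congr rfl fun j _ => hg j
  have hf : ∀ q : ℤ, (e * R i q).rank = (Finsupp.single (0 : ℤ) (1 : ℕ)).sum fun i x => x * g (q - i) := by
    intro q
    rw [Finsupp.sum_single_index (by rw [zero_mul]), one_mul, sub_zero, hg]
  have hdv : ∀ q, (g.sum fun _ x => x) ∣ (e * R i0 q).rank := by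
    intro q
    rw [hgs]
    by_cases hq : q = p
    · rw [hq, hp]
    · have h1 : (e * R i0 q).rank = 0 := by
        have h2 := C0.sum_rank43
        have hpS : p ∈ T i0 := by
          by_contra h3
          rw [C0.supp_rank43 h3] at hp
          omega
        by_cases hqS : q ∈ T i0
        · rw [← Finset.add_sum_erase _ _ hpS, hp] at h2
          have h3 : q ∈ (T i0).erase p := Finset.mem_erase.2 ⟨hq, hqS⟩
          have h4 := Finset.single_le_sum (f := fun p => (e * R i0 p).rank) (fun _ _ => Nat.zero_le _) h3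
          omega
        · exact C0.supp_rank43 hqS
      rw [h1]
      exact dvd_zero _
  have hcard : g.support.card ≤ 1 := by
    rcases hN with hN | ⟨hO, hN⟩
    · exact hN i _ g hf hdv
    · refine hN i 0 _ g (fun j => ?_) (fun j => ?_) hf hdv
      · rw [Finsupp.single_apply, Finsupp.single_apply]
        by_cases hj : j = 0
        · rw [hj, sub_zero]
        · rw [if_neg (Ne.symm hj), if_neg (by omega)]
      · rw [hg, hg, show w - 0 - j = w - j by ring]
        exact pal43 H G he hVW hWV (F.irr43 G he hVW hWV) (by omega) hO (F.ht i) j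
  -- one degree
  rcases Finset.eq_empty_or_nonempty g.support with h1 | ⟨q, hq⟩
  · have h2 : (g.sum fun _ x => x) = 0 := by
      rw [Finsupp.sum, h1, Finset.sum_empty]
    omega
  · apply hi q
    have h2 : g.support = {q} := Finset.eq_singleton_iff_unique_mem.2 ⟨hq, fun x hx => Finset.card_le_one.1 hcard _ hx _ hq⟩
    rw [Finsupp.sum, h2, Finset.sum_singleton, hg] at hgs
    exact hgs

end MH
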