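import Pool.Agent.Helper98.AT.Dich

/-!
Project BL2 (MP_b8862a_ag): the splitting of a self-adjoint `h` that normalises a self-adjoint algebra `A` with trivial centre
(NI.split, NI.fac, NI.dich of helper55 and helper98), with the size of the second factor.
-/

set_option linter.unusedSectionVars false
set_option linter.unusedVariables false

open Matrix MH

namespace NI

variable {n : Type*} [Fintype n] [DecidableEq n]
variable {h : Matrix n n ℂ} {E : ℝ → Matrix n n ℂ} {Λ : Finset ℝ} {L : Submodule ℂ (Matrix n n ℂ)}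

private lemma diagN {ι : Type*} [Fintype ι] [DecidableEq ι] {a : Matrix ι ι ℂ} (ha : aᴴ = a) :
    ∃ (V : Matrix ι ι ℂ) (α : ι → ℝ), Vᴴ * V = 1 ∧ V * Vᴴ = 1 ∧ a * V = V * diagonal (fun i => (α i : ℂ)) := by
  have hA : a.IsHermitian := ha
  refine ⟨(hA.eigenvectorUnitary : Matrix ι ι ℂ), hA.eigenvalues, ?_, ?_, ?_⟩
  · rw [← star_eq_conjTranspose]
    exact Unitary.coe_star_mul_self hA.eigenvectorUnitary
  · rw [← star_eq_conjTranspose]
    exact Unitary.coe_mul_star_self hA.eigenvectorUnitary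
  · have h1 := hA.conjStarAlgAut_star_eigenvectorUnitary
    rw [Unitary.conjStarAlgAut_star_apply] at h1
    have h2 : diagonal (fun i => ((hA.eigenvalues i : ℝ) : ℂ)) =
        star (hA.eigenvectorUnitary : Matrix ι ι ℂ) * a * (hA.eigenvectorUnitary : Matrix ι ι ℂ) := h1.symm
    have h3 : (hA.eigenvectorUnitary : Matrix ι ι ℂ) * star (hA.eigenvectorUnitary : Matrix ι ι ℂ) = 1 :=
      Unitary.coe_mul_star_self hA.eigenvectorUnitary
    rw [h2, ← Matrix.mul_assoc, ← Matrix.mul_assoc, h3, Matrix.one_mul]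

private lemma entLN {d q : ℕ} (H : Matrix (Fin d × Fin q) (Fin d × Fin q) ℂ) (C : Matrix (Fin d) (Fin d) ℂ)
    (i j : Fin d) (k l : Fin q) :
    (H * kroneckerMap (· * ·) C (1 : Matrix (Fin q) (Fin q) ℂ)) (i, k) (j, l) = ∑ p, H (i, k) (p, l) * C p j := by
  rw [Matrix.mul_apply, Fintype.sum_prod_type]
  refine Finset.sum_congr rfl fun p _ => ?_
  rw [Finset.sum_eq_single l]
  · rw [kroneckerMap_apply, Matrix.one_apply_eq, mul_one]
  · intro r _ hr
    rw [kroneckerMap_apply, Matrix.one_apply_ne hr, mul_zero, mul_zero]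
  · intro hl
    exact absurd (Finset.mem_univ l) hl

private lemma entRN {d q : ℕ} (H : Matrix (Fin d × Fin q) (Fin d × Fin q) ℂ) (C : Matrix (Fin d) (Fin d) ℂ)
    (i j : Fin d) (k l : Fin q) :
    (kroneckerMap (· * ·) C (1 : Matrix (Fin q) (Fin q) ℂ) * H) (i, k) (j, l) = ∑ p, C i p * H (p, k) (j, l) := by
  rw [Matrix.mul_apply, Fintype.sum_prod_type]
  refine Finset.sum_congr rfl fun p _ => ?_
  rw [Finset.sum_eq_single k]
  · rw [kroneckerMap_apply, Matrix.one_apply_eq, mul_one]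
  · intro r _ hr
    rw [kroneckerMap_apply, Matrix.one_apply_ne hr.symm, mul_zero, zero_mul]
  · intro hl
    exact absurd (Finset.mem_univ k) hl

/-- an operator which normalises `M_d ⊗ 1` is `a ⊗ 1 + 1 ⊗ b` -/
private lemma splitN {d q : ℕ} (i0 : Fin d) (k0 : Fin q) (H : Matrix (Fin d × Fin q) (Fin d × Fin q) ℂ)
    (hH : ∀ C : Matrix (Fin d) (Fin d) ℂ, ∃ D : Matrix (Fin d) (Fin d) ℂ,
      H * kroneckerMap (· * ·) C (1 : Matrix (Fin q) (Fin q) ℂ) - kroneckerMap (· * ·) C (1 : Matrix (Fin q) (Fin q) ℂ) * H =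
        kroneckerMap (· * ·) D (1 : Matrix (Fin q) (Fin q) ℂ)) :
    H = kroneckerMap (· * ·) (Matrix.of fun i p => H (i, k0) (p, k0) - if i = p then H (i0, k0) (i0, k0) else 0)
        (1 : Matrix (Fin q) (Fin q) ℂ) +
      kroneckerMap (· * ·) (1 : Matrix (Fin d) (Fin d) ℂ) (Matrix.of fun k l => H (i0, k) (i0, l)) := by
  have key : ∀ p r i j : Fin d, ∃ s : ℂ, ∀ k l : Fin q,
      (if j = r then H (i, k) (p, l) else 0) - (if i = p then H (r, k) (j, l) else 0) = if k = l then s else 0 := by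
    intro p r i j
    obtain ⟨D, hD⟩ := hH (Matrix.of fun a b => if a = p ∧ b = r then 1 else 0)
    refine ⟨D i j, fun k l => ?_⟩
    have e1 := congrFun (congrFun hD (i, k)) (j, l)
    rw [Matrix.sub_apply, entLN, entRN, kroneckerMap_apply] at e1
    have e2 : ∑ x, H (i, k) (x, l) * (Matrix.of fun a b => if a = p ∧ b = r then (1 : ℂ) else 0) x j =
        if j = r then H (i, k) (p, l) else 0 := by
      rw [Finset.sum_eq_single p]
      · simp only [of_apply, true_and]
        split_ifs <;> simp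
      · intro x _ hx
        simp only [of_apply, hx, false_and, if_false, mul_zero]
      · intro hp
        exact absurd (Finset.mem_univ p) hp
    have e3 : ∑ x, (Matrix.of fun a b => if a = p ∧ b = r then (1 : ℂ) else 0) i x * H (x, k) (j, l) =
        if i = p then H (r, k) (j, l) else 0 := by
      rw [Finset.sum_eq_single r]
      · simp only [of_apply, and_true]
        split_ifs <;> simp
      · intro x _ hx
        simp only [of_apply, hx, and_false, if_false, zero_mul]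
      · intro hp
        exact absurd (Finset.mem_univ r) hp
    rw [e2, e3] at e1
    rw [e1, Matrix.one_apply]
    split_ifs <;> simp
  ext ⟨i, k⟩ ⟨p, l⟩
  rw [Matrix.add_apply, kroneckerMap_apply, kroneckerMap_apply, of_apply, of_apply, Matrix.one_apply, Matrix.one_apply]
  by_cases hip : i = p
  · subst hip
    obtain ⟨s, hs⟩ := key i i0 i i0
    have f1 := hs k l
    have f2 := hs k0 k0
    simp only [if_true] at f1 f2
    simp only [if_true]
    split_ifs at f1 ⊢ with hkl
    · rw [mul_one, one_mul, f2, ← f1]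
      ring
    · rw [mul_zero, one_mul, zero_add]
      linear_combination f1
  · obtain ⟨s, hs⟩ := key p p i p
    have f1 := hs k l
    have f2 := hs k0 k0
    simp only [if_true, hip, if_false, sub_zero] at f1 f2
    simp only [hip, if_false, sub_zero, zero_mul, add_zero]
    rw [f1, f2]
    split_ifs <;> simp

private lemma comm_kr {d q : ℕ} (k0 : Fin q) (M : Matrix (Fin d × Fin q) (Fin d × Fin q) ℂ)
    (hM : ∀ Z : Matrix (Fin q) (Fin q) ℂ, M * kroneckerMap (· * ·) (1 : Matrix (Fin d) (Fin d) ℂ) Z =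
      kroneckerMap (· * ·) (1 : Matrix (Fin d) (Fin d) ℂ) Z * M) :
    M = kroneckerMap (· * ·) (Matrix.of fun i j => M (i, k0) (j, k0)) (1 : Matrix (Fin q) (Fin q) ℂ) := by
  have key : ∀ (i j : Fin d) (a b k l : Fin q), (if l = b then M (i, a) (j, k) else 0) = if a = k then M (i, l) (j, b) else 0 := by
    intro i j a b k l
    have e1 := congrFun (congrFun (hM (Matrix.of fun x y => if x = k ∧ y = l then 1 else 0)) (i, a)) (j, b)
    rw [Matrix.mul_apply, Matrix.mul_apply, Fintype.sum_prod_type, Fintype.sum_prod_type] at e1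
    have e2 : ∑ x, ∑ y, M (i, a) (x, y) * kroneckerMap (· * ·) (1 : Matrix (Fin d) (Fin d) ℂ)
        (Matrix.of fun x y => if x = k ∧ y = l then (1 : ℂ) else 0) (x, y) (j, b) = if l = b then M (i, a) (j, k) else 0 := by
      rw [Finset.sum_eq_single j, Finset.sum_eq_single k]
      · rw [kroneckerMap_apply, Matrix.one_apply_eq, of_apply]
        by_cases hlb : l = b
        · simp [hlb]
        · simp [hlb, Ne.symm hlb]
      · intro y _ hy
        rw [kroneckerMap_apply, of_apply, if_neg (fun h => hy h.1), mul_zero, mul_zero]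
      · intro h; exact absurd (Finset.mem_univ k) h
      · intro x _ hx
        refine Finset.sum_eq_zero fun y _ => ?_
        rw [kroneckerMap_apply, Matrix.one_apply_ne hx, zero_mul, mul_zero]
      · intro h; exact absurd (Finset.mem_univ j) h
    have e3 : ∑ x, ∑ y, kroneckerMap (· * ·) (1 : Matrix (Fin d) (Fin d) ℂ)
        (Matrix.of fun x y => if x = k ∧ y = l then (1 : ℂ) else 0) (i, a) (x, y) * M (x, y) (j, b) =
        if a = k then M (i, l) (j, b) else 0 := by
      rw [Finset.sum_eq_single i, Finset.sum_eq_single l]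
      · rw [kroneckerMap_apply, Matrix.one_apply_eq, of_apply]
        by_cases hak : a = k
        · simp [hak]
        · simp [hak]
      · intro y _ hy
        rw [kroneckerMap_apply, of_apply, if_neg (fun h => hy h.2), mul_zero, zero_mul]
      · intro h; exact absurd (Finset.mem_univ l) h
      · intro x _ hx
        refine Finset.sum_eq_zero fun y _ => ?_
        rw [kroneckerMap_apply, Matrix.one_apply_ne (Ne.symm hx), zero_mul, zero_mul]
      · intro h; exact absurd (Finset.mem_univ i) h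
    rw [e2, e3] at e1
    exact e1
  ext ⟨i, a⟩ ⟨j, k⟩
  rw [kroneckerMap_apply, of_apply, Matrix.one_apply]
  by_cases hak : a = k
  · subst hak
    have := key i j a k0 a k0
    simp only [if_true] at this
    rw [if_pos rfl, mul_one, this]
  · have := key i j a k0 k k0
    simp only [if_true, if_neg hak] at this
    rw [if_neg hak, mul_zero, this]

/-- A self-adjoint algebra `A` with trivial centre that is normalised by the self-adjoint `h`: `h` is the sum of an
element `k` of `A` and of an element of the commutant of `A`, and these can be diagonalised together. -/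
theorem split43 [Nonempty n] (hh : hᴴ = h) (A : Subalgebra ℂ (Matrix n n ℂ)) (hst : ∀ a ∈ A, aᴴ ∈ A)
    (hcen : ∀ a ∈ A, (∀ b ∈ A, a * b = b * a) → ∃ c : ℂ, a = c • (1 : Matrix n n ℂ))
    (hn : ∀ a ∈ A, h * a - a * h ∈ A) :
    ∃ (d q : ℕ) (e : n ≃ Fin d × Fin q) (α : Fin d → ℝ) (β : Fin q → ℝ) (X Y k : Matrix n n ℂ), 1 ≤ d ∧ 1 ≤ q ∧
      Y * X = 1 ∧ X * Y = 1 ∧ k ∈ A ∧ (∀ a ∈ A, (h - k) * a = a * (h - k)) ∧
      k * X = X * diagonal (fun s => (α (e s).1 : ℂ)) ∧ (h - k) * X = X * diagonal (fun s => (β (e s).2 : ℂ)) ∧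
      ∑ i, α i = 0 ∧
      ∀ T : Matrix n n ℂ, (∀ Z : Matrix n n ℂ, (∀ a ∈ A, Z * a = a * Z) → Z * T = T * Z) → T * T = T → q ∣ T.rank := by
  classical
  obtain ⟨d, q, e, U, hd, hq, h1, h2, hA⟩ := OW.coord A hst hcen
  have hA' : ∀ T : Matrix n n ℂ, T ∈ A ↔ ∃ C : Matrix (Fin d) (Fin d) ℂ,
      T = emb U e (kroneckerMap (· * ·) C (1 : Matrix (Fin q) (Fin q) ℂ)) := by
    intro T
    rw [hA]
    constructor
    · rintro ⟨C, hC⟩
      refine ⟨C, ?_⟩
      rw [← emb_coord (e := e) h2 T, hC, submatrix_submatrix, Equiv.self_comp_symm, submatrix_id_id]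
    · rintro ⟨C, rfl⟩
      exact ⟨C, coord_emb h1 _⟩
  obtain ⟨i0⟩ : Nonempty (Fin d) := ⟨⟨0, by omega⟩⟩
  obtain ⟨k0⟩ : Nonempty (Fin q) := ⟨⟨0, by omega⟩⟩
  obtain ⟨H, hH⟩ : ∃ H : Matrix (Fin d × Fin q) (Fin d × Fin q) ℂ, emb U e H = h := ⟨_, emb_coord h2 h⟩
  have hHs : Hᴴ = H := by
    apply emb_inj (e := e) h1
    rw [← emb_star, hH, hh]
  have hsp := splitN i0 k0 H (by
    intro C
    obtain ⟨D, hD⟩ := (hA' _).1 (hn _ ((hA' _).2 ⟨C, rfl⟩))
    refine ⟨D, ?_⟩
    apply emb_inj (e := e) h1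
    rw [← hD, ← hH, emb_mul h1, emb_mul h1, sub_eq_add_neg, emb_add, ← neg_one_smul ℂ, emb_smul, neg_one_smul,
      ← sub_eq_add_neg])
  obtain ⟨a, ha⟩ : ∃ a : Matrix (Fin d) (Fin d) ℂ,
    a = Matrix.of fun i p => H (i, k0) (p, k0) - if i = p then H (i0, k0) (i0, k0) else 0 := ⟨_, rfl⟩
  obtain ⟨b, hb⟩ : ∃ b : Matrix (Fin q) (Fin q) ℂ, b = Matrix.of fun k l => H (i0, k) (i0, l) := ⟨_, rfl⟩
  rw [← ha, ← hb] at hsp
  have hent : ∀ x y, star (H x y) = H y x := by
    intro x y
    have := congrFun (congrFun hHs y) x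
    rwa [conjTranspose_apply] at this
  have has : aᴴ = a := by
    ext i p
    rw [conjTranspose_apply, ha, of_apply, of_apply, star_sub, hent]
    congr 1
    by_cases hip : i = p
    · subst hip
      rw [if_pos rfl, hent]
    · rw [if_neg hip, if_neg (Ne.symm hip), star_zero]
  have hbs : bᴴ = b := by
    ext k l
    rw [conjTranspose_apply, hb, of_apply, of_apply, hent]
  obtain ⟨V, α, v1, v2, v3⟩ := diagN has
  obtain ⟨W, β, w1, w2, w3⟩ := diagN hbs
  -- the two parts
  obtain ⟨t, ht⟩ : ∃ t : ℝ, t = (∑ i, α i) / d := ⟨_, rfl⟩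
  obtain ⟨ka, hka⟩ : ∃ ka : Matrix n n ℂ, ka = emb U e (kroneckerMap (· * ·) a (1 : Matrix (Fin q) (Fin q) ℂ)) := ⟨_, rfl⟩
  obtain ⟨kb, hkb⟩ : ∃ kb : Matrix n n ℂ, kb = emb U e (kroneckerMap (· * ·) (1 : Matrix (Fin d) (Fin d) ℂ) b) := ⟨_, rfl⟩
  have hab : h = ka + kb := by
    rw [← hH, hsp, emb_add, hka, hkb]
  have hkaA : ka ∈ A := (hA' _).2 ⟨a, hka⟩
  have hkbA : ∀ T ∈ A, kb * T = T * kb := by
    intro T hT
    obtain ⟨C, rfl⟩ := (hA' _).1 hT
    have z1 := mul_kronecker_mul (1 : Matrix (Fin d) (Fin d) ℂ) C b (1 : Matrix (Fin q) (Fin q) ℂ)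
    have z2 := mul_kronecker_mul C (1 : Matrix (Fin d) (Fin d) ℂ) (1 : Matrix (Fin q) (Fin q) ℂ) b
    rw [Matrix.one_mul, Matrix.mul_one] at z1 z2
    rw [hkb, emb_mul h1, emb_mul h1]
    congr 1
    exact z1.symm.trans z2
  obtain ⟨Z, hZ⟩ : ∃ Z : Matrix (Fin d × Fin q) (Fin d × Fin q) ℂ, Z = kroneckerMap (· * ·) V W := ⟨_, rfl⟩
  obtain ⟨Zi, hZi⟩ : ∃ Zi : Matrix (Fin d × Fin q) (Fin d × Fin q) ℂ, Zi = kroneckerMap (· * ·) Vᴴ Wᴴ := ⟨_, rfl⟩
  have z1 : Zi * Z = 1 := by
    have := mul_kronecker_mul Vᴴ V Wᴴ W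
    rw [v1, w1, one_kronecker_one] at this
    rw [hZ, hZi]
    exact this.symm
  have z2 : Z * Zi = 1 := by
    have := mul_kronecker_mul V Vᴴ W Wᴴ
    rw [v2, w2, one_kronecker_one] at this
    rw [hZ, hZi]
    exact this.symm
  have dg : ∀ (γ : Fin d × Fin q → ℂ), emb U e (diagonal γ) * U = U * diagonal (fun s => γ (e s)) := by
    intro γ
    unfold emb
    rw [Matrix.mul_assoc, h1, Matrix.mul_one, submatrix_diagonal_equiv]
    rfl
  have y1 : kroneckerMap (· * ·) a (1 : Matrix (Fin q) (Fin q) ℂ) * Z = Z * diagonal (fun ik => (α ik.1 : ℂ)) := by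
    have z1 := mul_kronecker_mul a V (1 : Matrix (Fin q) (Fin q) ℂ) W
    have z3 := mul_kronecker_mul V (diagonal (fun i => (α i : ℂ))) W (1 : Matrix (Fin q) (Fin q) ℂ)
    rw [v3, Matrix.one_mul] at z1
    rw [Matrix.mul_one] at z3
    have z5 : diagonal (fun ik : Fin d × Fin q => (α ik.1 : ℂ)) =
        kroneckerMap (· * ·) (diagonal (fun i => (α i : ℂ))) (1 : Matrix (Fin q) (Fin q) ℂ) := by
      ext ⟨i, k⟩ ⟨j, l⟩
      rw [kroneckerMap_apply, diagonal_apply, diagonal_apply, Matrix.one_apply]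
      by_cases hij : i = j
      · by_cases hkl : k = l
        · simp [hij, hkl]
        · simp [hij, hkl]
      · by_cases hkl : k = l
        · simp [hij, hkl]
        · simp [hij, hkl]
    rw [hZ, z5]
    exact z1.symm.trans z3
  have y2 : kroneckerMap (· * ·) (1 : Matrix (Fin d) (Fin d) ℂ) b * Z = Z * diagonal (fun ik => (β ik.2 : ℂ)) := by
    have z2 := mul_kronecker_mul (1 : Matrix (Fin d) (Fin d) ℂ) V b W
    have z4 := mul_kronecker_mul V (1 : Matrix (Fin d) (Fin d) ℂ) W (diagonal (fun i => (β i : ℂ)))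
    rw [w3, Matrix.one_mul] at z2
    rw [Matrix.mul_one] at z4
    have z5 : diagonal (fun ik : Fin d × Fin q => (β ik.2 : ℂ)) =
        kroneckerMap (· * ·) (1 : Matrix (Fin d) (Fin d) ℂ) (diagonal (fun i => (β i : ℂ))) := by
      ext ⟨i, k⟩ ⟨j, l⟩
      rw [kroneckerMap_apply, diagonal_apply, diagonal_apply, Matrix.one_apply]
      by_cases hij : i = j
      · by_cases hkl : k = l
        · simp [hij, hkl]
        · simp [hij, hkl]
      · by_cases hkl : k = l
        · simp [hij, hkl]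
        · simp [hij, hkl]
    rw [hZ, z5]
    exact z2.symm.trans z4
  have key : ∀ (M : Matrix (Fin d × Fin q) (Fin d × Fin q) ℂ) (γ : Fin d × Fin q → ℂ), M * Z = Z * diagonal γ →
      emb U e M * (emb U e Z * U) = (emb U e Z * U) * diagonal (fun s => γ (e s)) := by
    intro M γ hM
    rw [← Matrix.mul_assoc, emb_mul h1, hM, ← emb_mul h1, Matrix.mul_assoc, dg, Matrix.mul_assoc]
  have hd0 : (d : ℝ) ≠ 0 := by
    have : 0 < d := hd
    positivity
  refine ⟨d, q, e, fun i => α i - t, fun k => β k + t, emb U e Z * U, Uᴴ * emb U e Zi, ka - (t : ℂ) • 1, hd, hq,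
    ?_, ?_, ?_, ?_, ?_, ?_, ?_, ?_⟩
  · calc Uᴴ * emb U e Zi * (emb U e Z * U) = Uᴴ * (emb U e Zi * emb U e Z) * U := by simp only [Matrix.mul_assoc]
      _ = 1 := by rw [emb_mul h1, z1, emb_one h2, Matrix.mul_one, h1]
  · calc emb U e Z * U * (Uᴴ * emb U e Zi) = emb U e Z * (U * Uᴴ) * emb U e Zi := by simp only [Matrix.mul_assoc]
      _ = 1 := by rw [h2, Matrix.mul_one, emb_mul h1, z2, emb_one h2]
  · exact A.sub_mem hkaA (A.smul_mem A.one_mem _)
  · intro T hT
    have e1 : h - (ka - (t : ℂ) • (1 : Matrix n n ℂ)) = kb + (t : ℂ) • 1 := by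
      rw [hab]
      abel
    rw [e1, Matrix.add_mul, Matrix.mul_add, hkbA T hT, Matrix.smul_mul, Matrix.mul_smul, Matrix.one_mul, Matrix.mul_one]
  · have e1 := key _ _ y1
    rw [← hka] at e1
    rw [Matrix.sub_mul, e1, Matrix.smul_mul, Matrix.one_mul]
    have e2 : (fun s => ((α (e s).1 - t : ℝ) : ℂ)) = fun s => (α (e s).1 : ℂ) - (t : ℂ) := by
      funext s
      push_cast
      rfl
    rw [e2]
    have e3 : diagonal (fun s => (α (e s).1 : ℂ) - (t : ℂ)) =
        diagonal (fun s => (α (e s).1 : ℂ)) - (t : ℂ) • (1 : Matrix n n ℂ) := by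
      rw [← diagonal_one, ← diagonal_smul, diagonal_sub]
      congr 1
      funext s
      simp
    rw [e3, Matrix.mul_sub, Matrix.mul_smul, Matrix.mul_one]
  · have e1 := key _ _ y2
    rw [← hkb] at e1
    have e0 : h - (ka - (t : ℂ) • (1 : Matrix n n ℂ)) = kb + (t : ℂ) • 1 := by
      rw [hab]
      abel
    rw [e0, Matrix.add_mul, e1, Matrix.smul_mul, Matrix.one_mul]
    have e2 : (fun s => ((β (e s).2 + t : ℝ) : ℂ)) = fun s => (β (e s).2 : ℂ) + (t : ℂ) := by
      funext s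
      push_cast
      rfl
    rw [e2]
    have e3 : diagonal (fun s => (β (e s).2 : ℂ) + (t : ℂ)) =
        diagonal (fun s => (β (e s).2 : ℂ)) + (t : ℂ) • (1 : Matrix n n ℂ) := by
      rw [← diagonal_one, ← diagonal_smul, diagonal_add]
      congr 1
      funext s
      simp
    rw [e3, Matrix.mul_add, Matrix.mul_smul, Matrix.mul_one]
  · rw [Finset.sum_sub_distrib, Finset.sum_const, Finset.card_univ, Fintype.card_fin, nsmul_eq_mul, ht,
      mul_div_cancel₀ _ hd0, sub_self]
  · intro T hT hTT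
    obtain ⟨M, hM⟩ : ∃ M : Matrix (Fin d × Fin q) (Fin d × Fin q) ℂ, NI.emb U e M = T := ⟨_, NI.emb_coord h2 _⟩
    have hMk := comm_kr k0 M (by
      intro Z
      obtain ⟨T', hT'⟩ : ∃ T', T' = NI.emb U e (kroneckerMap (· * ·) (1 : Matrix (Fin d) (Fin d) ℂ) Z) := ⟨_, rfl⟩
      have e1 := hT T' (by
        intro a ha
        obtain ⟨C, hC⟩ := (hA' a).1 ha
        have z1 := mul_kronecker_mul (1 : Matrix (Fin d) (Fin d) ℂ) C Z (1 : Matrix (Fin q) (Fin q) ℂ)
        have z2 := mul_kronecker_mul C (1 : Matrix (Fin d) (Fin d) ℂ) (1 : Matrix (Fin q) (Fin q) ℂ) Z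
        rw [Matrix.one_mul, Matrix.mul_one] at z1 z2
        rw [hC, hT', NI.emb_mul h1, NI.emb_mul h1]
        congr 1
        exact z1.symm.trans z2)
      rw [hT', ← hM, NI.emb_mul h1, NI.emb_mul h1] at e1
      exact (NI.emb_inj h1 e1).symm)
    obtain ⟨C, hC⟩ : ∃ C : Matrix (Fin d) (Fin d) ℂ, C = Matrix.of fun i j => M (i, k0) (j, k0) := ⟨_, rfl⟩
    rw [← hC] at hMk
    have hCC : C * C = C := by
      have e1 : M * M = M := by
        apply NI.emb_inj (e := e) h1
        rw [← NI.emb_mul h1, hM, hTT]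
      have z1 := mul_kronecker_mul C C (1 : Matrix (Fin q) (Fin q) ℂ) (1 : Matrix (Fin q) (Fin q) ℂ)
      rw [Matrix.one_mul] at z1
      rw [hMk] at e1
      have e2 : kroneckerMap (· * ·) (C * C) (1 : Matrix (Fin q) (Fin q) ℂ) =
          kroneckerMap (· * ·) C (1 : Matrix (Fin q) (Fin q) ℂ) := z1.trans e1
      ext i j
      have e3 := congrFun (congrFun e2 (i, k0)) (j, k0)
      rw [kroneckerMap_apply, kroneckerMap_apply, Matrix.one_apply_eq, mul_one, mul_one] at e3
      exact e3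
    have e1 : (T.rank : ℂ) = T.trace := rank_eq_trace hTT
    have e2 : (C.rank : ℂ) = C.trace := rank_eq_trace hCC
    have e3 : T.trace = q * C.trace := by
      rw [← hM]
      unfold NI.emb
      rw [Matrix.trace_mul_comm, ← Matrix.mul_assoc, h1, Matrix.one_mul, Matrix.trace]
      simp only [Matrix.diag_apply, Matrix.submatrix_apply]
      rw [Equiv.sum_comp e (fun x => M x x), hMk, Fintype.sum_prod_type]
      simp only [kroneckerMap_apply]
      simp only [Matrix.one_apply_eq, mul_one, Finset.sum_const, Finset.card_univ, Fintype.card_fin, nsmul_eq_mul]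
      rw [← Finset.mul_sum]
      rfl
    refine ⟨C.rank, ?_⟩
    have e4 : (T.rank : ℂ) = ((q * C.rank : ℕ) : ℂ) := by
      rw [e1, e3, ← e2]
      push_cast
      rfl
    exact_mod_cast e4

/-- The splitting with symmetric eigenvalues. -/
theorem fac43 [Nonempty n] (S : Spec h E Λ) (A : Subalgebra ℂ (Matrix n n ℂ)) (hst : ∀ a ∈ A, aᴴ ∈ A)
    (hcen : ∀ a ∈ A, (∀ b ∈ A, a * b = b * a) → ∃ c : ℂ, a = c • (1 : Matrix n n ℂ))
    (hn : ∀ a ∈ A, h * a - a * h ∈ A) {F Fi : Matrix n n ℂ} (f1 : F * Fi = 1) (f2 : Fi * F = 1) {c : ℂ} (hc : c * c = 1)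
    (hF : Fᵀ = c • F) (hAF : ∀ a ∈ A, Fi * aᵀ * F ∈ A) (hhF : Fi * hᵀ * F = -h) :
    ∃ (d q : ℕ) (α : Fin d → ℝ) (β : Fin q → ℝ), 1 ≤ d ∧ 1 ≤ q ∧
      (∀ μ : ℝ, (E μ).rank = (Finset.univ.filter fun ik : Fin d × Fin q => α ik.1 + β ik.2 = μ).card) ∧
      (∀ μ : ℝ, (Finset.univ.filter fun i => α i = μ).card = (Finset.univ.filter fun i => α i = -μ).card) ∧
      (∀ μ : ℝ, (Finset.univ.filter fun k => β k = μ).card = (Finset.univ.filter fun k => β k = -μ).card) ∧
      ((∀ i j, α i = α j) → ∀ a ∈ A, h * a = a * h) ∧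
      ((∀ k l, β k = β l) → ∀ T : Matrix n n ℂ, (∀ a ∈ A, T * a = a * T) → T * h = h * T) ∧
      ∀ T : Matrix n n ℂ, (∀ Z : Matrix n n ℂ, (∀ a ∈ A, Z * a = a * Z) → Z * T = T * Z) → T * T = T → q ∣ T.rank := by
  classical
  obtain ⟨d, q, e, α, β, X, Y, k, hd, hq, x1, x2, hk, hm, k1, k2, ks, hdv⟩ := split43 S.hh A hst hcen hn
  have hFi : Fiᵀ = c • Fi := by
    have e1 : Fiᵀ * Fᵀ = 1 := by rw [← Matrix.transpose_mul, f1, Matrix.transpose_one]
    rw [hF, Matrix.mul_smul] at e1
    calc Fiᵀ = (Fiᵀ * F) * Fi := by rw [Matrix.mul_assoc, f1, Matrix.mul_one]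
      _ = c • Fi := by
        have e2 : Fiᵀ * F = c • (1 : Matrix n n ℂ) := by
          rw [← e1, smul_smul, hc, one_smul]
        rw [e2, Matrix.smul_mul, Matrix.one_mul]
  have τmul : ∀ x y : Matrix n n ℂ, Fi * (x * y)ᵀ * F = (Fi * yᵀ * F) * (Fi * xᵀ * F) := by
    intro x y
    rw [Matrix.transpose_mul]
    calc Fi * (yᵀ * xᵀ) * F = Fi * yᵀ * (1 : Matrix n n ℂ) * xᵀ * F := by
          rw [Matrix.mul_one]
          simp only [Matrix.mul_assoc]
      _ = _ := by
          rw [← f1]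
          simp only [Matrix.mul_assoc]
  have ττ : ∀ x : Matrix n n ℂ, Fi * (Fi * xᵀ * F)ᵀ * F = x := by
    intro x
    rw [Matrix.transpose_mul, Matrix.transpose_mul, Matrix.transpose_transpose, hF, hFi]
    simp only [Matrix.smul_mul, Matrix.mul_smul, smul_smul, hc, one_smul]
    calc Fi * (F * (x * Fi)) * F = (Fi * F) * x * (Fi * F) := by simp only [Matrix.mul_assoc]
      _ = x := by rw [f2, Matrix.one_mul, Matrix.mul_one]
  have τtr : ∀ x : Matrix n n ℂ, (Fi * xᵀ * F).trace = x.trace := by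
    intro x
    rw [Matrix.trace_mul_comm, ← Matrix.mul_assoc, f1, Matrix.one_mul, Matrix.trace_transpose]
  obtain ⟨m, hmd⟩ : ∃ m : Matrix n n ℂ, m = h - k := ⟨_, rfl⟩
  rw [← hmd] at hm k2
  have hkm : h = k + m := by rw [hmd]; abel
  -- `k` is skew
  have ktr : k.trace = 0 := by
    have e1 : k = X * diagonal (fun s => (α (e s).1 : ℂ)) * Y := by
      rw [← k1, Matrix.mul_assoc, x2, Matrix.mul_one]
    rw [e1, Matrix.trace_mul_comm, ← Matrix.mul_assoc, x1, Matrix.one_mul, Matrix.trace_diagonal,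
      Equiv.sum_comp e (fun ik : Fin d × Fin q => (α ik.1 : ℂ)), Fintype.sum_prod_type]
    simp only [Finset.sum_const, Finset.card_univ, Fintype.card_fin]
    rw [← Finset.smul_sum]
    have e2 : ∑ i, (α i : ℂ) = 0 := by
      rw [← Complex.ofReal_sum, ks]
      rfl
    rw [e2, smul_zero]
  have hTm : ∀ a ∈ A, (Fi * mᵀ * F) * a = a * (Fi * mᵀ * F) := by
    intro a ha
    have e1 := hm _ (hAF a ha)
    have e2 : Fi * (m * (Fi * aᵀ * F))ᵀ * F = Fi * ((Fi * aᵀ * F) * m)ᵀ * F := by rw [e1]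
    rw [τmul m, τmul _ m, ττ] at e2
    exact e2.symm
  have hsum : Fi * kᵀ * F + k = -(Fi * mᵀ * F + m) := by
    have e1 := hhF
    rw [hkm, Matrix.transpose_add, Matrix.mul_add, Matrix.add_mul] at e1
    have e2 : Fi * kᵀ * F = -(k + m) - Fi * mᵀ * F := by
      rw [← e1]
      abel
    rw [e2]
    abel
  have hk' : Fi * kᵀ * F = -k := by
    obtain ⟨c', hc'⟩ := hcen (Fi * kᵀ * F + k) (A.add_mem (hAF k hk) hk) (by
      intro b hb
      rw [hsum, Matrix.neg_mul, Matrix.mul_neg, Matrix.add_mul, Matrix.mul_add, hTm b hb, hm b hb])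
    have e1 := congrArg Matrix.trace hc'
    rw [Matrix.trace_add, τtr, ktr, add_zero, Matrix.trace_smul, Matrix.trace_one, smul_eq_mul] at e1
    have e2 : c' = 0 := by
      rcases mul_eq_zero.1 e1.symm with h0 | h0
      · exact h0
      · exfalso
        have : Fintype.card n ≠ 0 := Fintype.card_ne_zero
        exact this (by exact_mod_cast h0)
    rw [e2, zero_smul] at hc'
    exact eq_neg_of_add_eq_zero_left hc'
  have hm' : Fi * mᵀ * F = -m := by
    rw [hk', neg_add_cancel] at hsum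
    exact eq_neg_of_add_eq_zero_left (neg_eq_zero.1 hsum.symm)
  refine ⟨d, q, α, β, hd, hq, ?_, ?_, ?_, ?_, ?_, hdv⟩
  · intro μ
    have e1 : h * X = X * diagonal (fun s => ((α (e s).1 + β (e s).2 : ℝ) : ℂ)) := by
      rw [hkm, Matrix.add_mul, k1, k2, ← Matrix.mul_add, diagonal_add]
      congr 2
      funext s
      push_cast
      rfl
    rw [countN S x1 x2 e1, Finset.card_filter, Finset.card_filter]
    exact Equiv.sum_comp e (fun ik : Fin d × Fin q => if α ik.1 + β ik.2 = μ then 1 else 0)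
  · intro μ
    have e1 := sym_of_skew (γ := fun s => α (e s).1) x1 x2 k1 f1 f2 hk' μ
    have e2 := card_fst e (fun i => α i = μ)
    have e3 := card_fst e (fun i => α i = -μ)
    rw [e2, e3] at e1
    exact Nat.eq_of_mul_eq_mul_left hq e1
  · intro μ
    have e1 := sym_of_skew (γ := fun s => β (e s).2) x1 x2 k2 f1 f2 hm' μ
    have e2 := card_snd e (fun k => β k = μ)
    have e3 := card_snd e (fun k => β k = -μ)
    rw [e2, e3] at e1
    exact Nat.eq_of_mul_eq_mul_left hd e1
  · intro hα a ha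
    have e1 : k = (α ⟨0, hd⟩ : ℂ) • (1 : Matrix n n ℂ) := by
      have e2 : diagonal (fun s => (α (e s).1 : ℂ)) = (α ⟨0, hd⟩ : ℂ) • (1 : Matrix n n ℂ) := by
        rw [← diagonal_one, ← diagonal_smul]
        congr 1
        funext s
        rw [hα (e s).1 ⟨0, hd⟩]
        simp
      calc k = k * X * Y := by rw [Matrix.mul_assoc, x2, Matrix.mul_one]
        _ = _ := by rw [k1, e2, Matrix.mul_smul, Matrix.mul_one, Matrix.smul_mul, x2]
    rw [hkm, Matrix.add_mul, Matrix.mul_add, hm a ha, e1, Matrix.smul_mul, Matrix.mul_smul, Matrix.one_mul, Matrix.mul_one]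
  · intro hβ T hT
    have e1 : m = (β ⟨0, hq⟩ : ℂ) • (1 : Matrix n n ℂ) := by
      have e2 : diagonal (fun s => (β (e s).2 : ℂ)) = (β ⟨0, hq⟩ : ℂ) • (1 : Matrix n n ℂ) := by
        rw [← diagonal_one, ← diagonal_smul]
        congr 1
        funext s
        rw [hβ (e s).2 ⟨0, hq⟩]
        simp
      calc m = m * X * Y := by rw [Matrix.mul_assoc, x2, Matrix.mul_one]
        _ = _ := by rw [k2, e2, Matrix.mul_smul, Matrix.mul_one, Matrix.smul_mul, x2]
    rw [hkm, Matrix.add_mul, Matrix.mul_add, hT k hk, e1, Matrix.smul_mul, Matrix.mul_smul, Matrix.one_mul, Matrix.mul_one]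

private lemma fsN {ι : Type*} [Fintype ι] (x : ι → ℤ) (F : ℤ → ℕ → ℕ) (h0 : ∀ i, F i 0 = 0)
    (ha : ∀ i a b, F i (a + b) = F i a + F i b) :
    (∑ i, Finsupp.single (x i) 1 : ℤ →₀ ℕ).sum F = ∑ i, F (x i) 1 := by
  classical
  rw [← Finsupp.sum_finsetSum_index h0 ha]
  refine Finset.sum_congr rfl fun i _ => ?_
  rw [Finsupp.sum_single_index (h0 _)]

private lemma apN {ι : Type*} [Fintype ι] (x : ι → ℤ) (j : ℤ) :
    (∑ i, Finsupp.single (x i) 1 : ℤ →₀ ℕ) j = (Finset.univ.filter fun i => x i = j).card := by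
  classical
  rw [Finsupp.finsetSum_apply, Finset.card_filter]
  refine Finset.sum_congr rfl fun i _ => ?_
  rw [Finsupp.single_apply]

private lemma supN {ι : Type*} [Fintype ι] (x : ι → ℤ) (h : (∑ i, Finsupp.single (x i) 1 : ℤ →₀ ℕ).support.card ≤ 1)
    (i j : ι) : x i = x j := by
  classical
  have hm : ∀ i, x i ∈ (∑ i, Finsupp.single (x i) 1 : ℤ →₀ ℕ).support := by
    intro i
    rw [Finsupp.mem_support_iff, apN]
    exact Finset.card_ne_zero.2 ⟨i, by simp⟩
  exact Finset.card_le_one.1 h _ (hm i) _ (hm j)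

/-- A normalised algebra when the multiplicities are not those of a product with a second factor of the size of `A`: `h`
commutes with the commutant of `A`. -/
theorem dichS43 [Nonempty n] (S : Spec h E Λ) (A : Subalgebra ℂ (Matrix n n ℂ)) (hst : ∀ a ∈ A, aᴴ ∈ A)
    (hcen : ∀ a ∈ A, (∀ b ∈ A, a * b = b * a) → ∃ c : ℂ, a = c • (1 : Matrix n n ℂ))
    (hn : ∀ a ∈ A, h * a - a * h ∈ A) {F Fi : Matrix n n ℂ} (f1 : F * Fi = 1) (f2 : Fi * F = 1) {c : ℂ} (hc : c * c = 1)
    (hF : Fᵀ = c • F) (hAF : ∀ a ∈ A, Fi * aᵀ * F ∈ A) (hhF : Fi * hᵀ * F = -h) (w : ℤ)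
    (hw : ∀ μ : ℝ, E μ ≠ 0 → ∃ p : ℤ, μ = 2 * p - w)
    (hI : ∀ (a : ℤ) (f g : ℤ →₀ ℕ), (∀ j, f (a - j) = f j) → (∀ j, g (w - a - j) = g j) →
      (∀ p : ℤ, (E (2 * p - w)).rank = f.sum fun i x => x * g (p - i)) →
      (∀ T : Matrix n n ℂ, (∀ Z : Matrix n n ℂ, (∀ a ∈ A, Z * a = a * Z) → Z * T = T * Z) → T * T = T →
        (g.sum fun _ x => x) ∣ T.rank) → g.support.card ≤ 1) :
    ∀ T : Matrix n n ℂ, (∀ a ∈ A, T * a = a * T) → T * h = h * T := by
  classical
  obtain ⟨d, q, α, β, hd, hq, hr, sα, sβ, cα, cβ, hdv⟩ := fac43 S A hst hcen hn f1 f2 hc hF hAF hhF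
  obtain ⟨i0⟩ : Nonempty (Fin d) := ⟨⟨0, by omega⟩⟩
  obtain ⟨k0⟩ : Nonempty (Fin q) := ⟨⟨0, by omega⟩⟩
  have hint : ∀ i k, ∃ j : ℤ, α i + β k = 2 * j - w := by
    intro i k
    apply hw
    intro h0
    have := hr (α i + β k)
    rw [h0, rank_zero] at this
    have h3 := Finset.card_eq_zero.1 this.symm
    have h4 : (i, k) ∈ (Finset.univ.filter fun j : Fin d × Fin q => α j.1 + β j.2 = α i + β k) := by simp
    rw [h3] at h4
    simp at h4
  choose z hz using hint
  -- `α i0` is an integer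
  obtain ⟨i1, hi1⟩ : ∃ i1, α i1 = -α i0 := by
    have h1 : (Finset.univ.filter fun i => α i = α i0).card ≠ 0 := Finset.card_ne_zero.2 ⟨i0, by simp⟩
    rw [sα] at h1
    obtain ⟨i1, h2⟩ := Finset.card_ne_zero.1 h1
    exact ⟨i1, (Finset.mem_filter.1 h2).2⟩
  obtain ⟨a, ha⟩ : ∃ a : ℤ, α i0 = -a := by
    refine ⟨z i1 k0 - z i0 k0, ?_⟩
    have a1 := hz i1 k0
    have a2 := hz i0 k0
    push_cast
    linarith
  obtain ⟨x, hx⟩ : ∃ x : Fin d → ℤ, ∀ i, x i = z i k0 - z i0 k0 := ⟨_, fun i => rfl⟩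
  obtain ⟨y, hy⟩ : ∃ y : Fin q → ℤ, ∀ k, y k = z i0 k := ⟨_, fun i => rfl⟩
  have hxα : ∀ i, α i = 2 * x i - a := by
    intro i
    have a1 := hz i k0
    have a2 := hz i0 k0
    rw [hx]
    push_cast
    linarith
  have hyβ : ∀ k, β k = 2 * y k - (w - a : ℤ) := by
    intro k
    have a2 := hz i0 k
    rw [hy]
    push_cast
    linarith
  have hcx : ∀ j : ℤ, (Finset.univ.filter fun i => x i = j).card = (Finset.univ.filter fun i => α i = 2 * (j : ℝ) - a).card := by
    intro j
    congr 1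
    ext i
    simp only [Finset.mem_filter, Finset.mem_univ, true_and]
    rw [hxα]
    constructor
    · intro h1
      rw [h1]
    · intro h1
      have : (x i : ℝ) = j := by linarith
      exact_mod_cast this
  have hcy : ∀ j : ℤ, (Finset.univ.filter fun k => y k = j).card =
      (Finset.univ.filter fun k => β k = 2 * (j : ℝ) - (w - a : ℤ)).card := by
    intro j
    congr 1
    ext i
    simp only [Finset.mem_filter, Finset.mem_univ, true_and]
    rw [hyβ]
    constructor
    · intro h1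
      rw [h1]
    · intro h1
      have : (y i : ℝ) = j := by linarith
      exact_mod_cast this
  have hfin := hI a (∑ i, Finsupp.single (x i) 1) (∑ k, Finsupp.single (y k) 1) (by
      intro j
      rw [apN, apN, hcx, hcx, sα]
      congr 1
      ext i
      simp only [Finset.mem_filter, Finset.mem_univ, true_and]
      push_cast
      constructor <;> intro h1 <;> linarith) (by
      intro j
      rw [apN, apN, hcy, hcy, sβ]
      congr 1
      ext i
      simp only [Finset.mem_filter, Finset.mem_univ, true_and]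
      push_cast
      constructor <;> intro h1 <;> linarith) (by
      intro p
      show (E (2 * p - w)).rank = _
      rw [hr, fsN x (fun i a => a * (∑ k, Finsupp.single (y k) 1 : ℤ →₀ ℕ) (p - i)) (fun i => zero_mul _)
        (fun i a b => add_mul _ _ _), Finset.card_filter, Fintype.sum_prod_type]
      refine Finset.sum_congr rfl fun i _ => ?_
      rw [one_mul, apN, Finset.card_filter]
      refine Finset.sum_congr rfl fun k _ => ?_
      have : (α i + β k = 2 * p - w) ↔ (y k = p - x i) := by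
        rw [hxα, hyβ]
        push_cast
        constructor
        · intro h1
          have : (y k : ℝ) = ((p - x i : ℤ) : ℝ) := by
            push_cast
            linarith
          exact_mod_cast this
        · intro h1
          have : (y k : ℝ) = ((p - x i : ℤ) : ℝ) := by rw [h1]
          push_cast at this
          linarith
      simp only [this]) (by
      intro T hT hTT
      rw [fsN y (fun _ a => a) (fun i => rfl) (fun i a b => rfl)]
      simp only [Finset.sum_const, Finset.card_univ, Fintype.card_fin, smul_eq_mul, mul_one]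
      exact hdv T hT hTT)
  refine cβ fun k l => ?_
  rw [hyβ, hyβ, supN y hfin k l]

/-- The same without a form. -/
theorem dichU43 [Nonempty n] (S : Spec h E Λ) (A : Subalgebra ℂ (Matrix n n ℂ)) (hst : ∀ a ∈ A, aᴴ ∈ A)
    (hcen : ∀ a ∈ A, (∀ b ∈ A, a * b = b * a) → ∃ c : ℂ, a = c • (1 : Matrix n n ℂ))
    (hn : ∀ a ∈ A, h * a - a * h ∈ A) (t : ℝ) (hw : ∀ μ : ℝ, E μ ≠ 0 → ∃ p : ℤ, μ = p - t)
    (hI : ∀ f g : ℤ →₀ ℕ, (∀ p : ℤ, (E (p - t)).rank = f.sum fun i x => x * g (p - i)) →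
      (∀ T : Matrix n n ℂ, (∀ Z : Matrix n n ℂ, (∀ a ∈ A, Z * a = a * Z) → Z * T = T * Z) → T * T = T →
        (g.sum fun _ x => x) ∣ T.rank) → g.support.card ≤ 1) :
    ∀ T : Matrix n n ℂ, (∀ a ∈ A, T * a = a * T) → T * h = h * T := by
  classical
  obtain ⟨d, q, e, α, β, X, Y, k, hd, hq, x1, x2, hk, hm, k1, k2, ks, hdv⟩ := split43 S.hh A hst hcen hn
  obtain ⟨m, hmd⟩ : ∃ m : Matrix n n ℂ, m = h - k := ⟨_, rfl⟩
  rw [← hmd] at hm k2
  have hkm : h = k + m := by rw [hmd]; abel
  have hr : ∀ μ : ℝ, (E μ).rank = (Finset.univ.filter fun ik : Fin d × Fin q => α ik.1 + β ik.2 = μ).card := by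
    intro μ
    have e1 : h * X = X * diagonal (fun s => ((α (e s).1 + β (e s).2 : ℝ) : ℂ)) := by
      rw [hkm, Matrix.add_mul, k1, k2, ← Matrix.mul_add, diagonal_add]
      congr 2
      funext s
      push_cast
      rfl
    rw [NI.countN S x1 x2 e1, Finset.card_filter, Finset.card_filter]
    exact Equiv.sum_comp e (fun ik : Fin d × Fin q => if α ik.1 + β ik.2 = μ then 1 else 0)
  have cβ : (∀ k l, β k = β l) → ∀ T : Matrix n n ℂ, (∀ a ∈ A, T * a = a * T) → T * h = h * T := by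
    intro hβ T hT
    have e1 : m = (β ⟨0, hq⟩ : ℂ) • (1 : Matrix n n ℂ) := by
      have e2 : diagonal (fun s => (β (e s).2 : ℂ)) = (β ⟨0, hq⟩ : ℂ) • (1 : Matrix n n ℂ) := by
        rw [← diagonal_one, ← diagonal_smul]
        congr 1
        funext s
        rw [hβ (e s).2 ⟨0, hq⟩]
        simp
      calc m = m * X * Y := by rw [Matrix.mul_assoc, x2, Matrix.mul_one]
        _ = _ := by rw [k2, e2, Matrix.mul_smul, Matrix.mul_one, Matrix.smul_mul, x2]
    rw [hkm, Matrix.add_mul, Matrix.mul_add, hT k hk, e1, Matrix.smul_mul, Matrix.mul_smul, Matrix.one_mul, Matrix.mul_one]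
  obtain ⟨i0⟩ : Nonempty (Fin d) := ⟨⟨0, by omega⟩⟩
  obtain ⟨k0⟩ : Nonempty (Fin q) := ⟨⟨0, by omega⟩⟩
  have hint : ∀ i k, ∃ j : ℤ, α i + β k = j - t := by
    intro i k
    apply hw
    intro h0
    have := hr (α i + β k)
    rw [h0, rank_zero] at this
    have h3 := Finset.card_eq_zero.1 this.symm
    have h4 : (i, k) ∈ (Finset.univ.filter fun j : Fin d × Fin q => α j.1 + β j.2 = α i + β k) := by simp
    rw [h3] at h4
    simp at h4
  choose z hz using hint
  obtain ⟨x, hx⟩ : ∃ x : Fin d → ℤ, ∀ i, x i = z i k0 - z i0 k0 := ⟨_, fun i => rfl⟩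
  obtain ⟨y, hy⟩ : ∃ y : Fin q → ℤ, ∀ k, y k = z i0 k := ⟨_, fun i => rfl⟩
  have hxα : ∀ i, α i = x i + α i0 := by
    intro i
    have a1 := hz i k0
    have a2 := hz i0 k0
    rw [hx]
    push_cast
    linarith
  have hyβ : ∀ k, β k = y k - t - α i0 := by
    intro k
    have a2 := hz i0 k
    rw [hy]
    linarith
  have hfin := hI (∑ i, Finsupp.single (x i) 1) (∑ k, Finsupp.single (y k) 1) (by
      intro p
      show (E (p - t)).rank = _
      rw [hr, fsN x (fun i a => a * (∑ k, Finsupp.single (y k) 1 : ℤ →₀ ℕ) (p - i)) (fun i => zero_mul _)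
        (fun i a b => add_mul _ _ _), Finset.card_filter, Fintype.sum_prod_type]
      refine Finset.sum_congr rfl fun i _ => ?_
      rw [one_mul, apN, Finset.card_filter]
      refine Finset.sum_congr rfl fun k _ => ?_
      have : (α i + β k = p - t) ↔ (y k = p - x i) := by
        rw [hxα, hyβ]
        constructor
        · intro h1
          have : (y k : ℝ) = ((p - x i : ℤ) : ℝ) := by
            push_cast
            linarith
          exact_mod_cast this
        · intro h1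
          have : (y k : ℝ) = ((p - x i : ℤ) : ℝ) := by rw [h1]
          push_cast at this
          linarith
      simp only [this]) (by
      intro T hT hTT
      rw [fsN y (fun _ a => a) (fun i => rfl) (fun i a b => rfl)]
      simp only [Finset.sum_const, Finset.card_univ, Fintype.card_fin, smul_eq_mul, mul_one]
      exact hdv T hT hTT)
  refine cβ fun k l => ?_
  rw [hyβ k, hyβ l, supN y hfin k l]


end NI
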