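import Pool.Agent.Helper43.BL2.Blk

/-!
Project BL2 (MP_b8862a_ag): the type of a block whose Lie algebra is simple.
-/

set_option linter.unusedSectionVars false
set_option linter.unusedVariables false

open Matrix Module GH OW

namespace MH

variable {n : Type*} [Fintype n] [DecidableEq n]
variable {w : ℤ} {Q : Matrix n n ℚ} {S : Finset ℤ} {P : ℤ → Matrix n n ℂ} {Γ : Subgroup (GL n ℂ)}
variable {r : ℕ} {W : Matrix n (Fin r) ℂ} {V : Matrix (Fin r) n ℂ} {e : Matrix n n ℂ}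

section skew

/-- the elements of trace zero are skew -/
theorem T0_skew (hr : 0 < r) {F Fi : Matrix (Fin r) (Fin r) ℂ} (hF1 : F * Fi = 1) (hF2 : Fi * F = 1)
    {L : Submodule ℂ (Matrix (Fin r) (Fin r) ℂ)} (hFL : ∀ x ∈ L, ∃ c : ℂ, xᵀ * F + F * x = c • F)
    {X : Matrix (Fin r) (Fin r) ℂ} (hX : X ∈ T0 L) : Xᵀ * F + F * X = 0 := by
  have hr0 : (r : ℂ) ≠ 0 := by exact_mod_cast hr.ne'
  rw [mem_T0] at hX
  obtain ⟨c, hc⟩ := hFL X hX.1
  have h1 : Xᵀ + F * X * Fi = c • (1 : Matrix (Fin r) (Fin r) ℂ) := by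
    have h3 := congrArg (fun Y => Y * Fi) hc
    simp only [Matrix.add_mul, Matrix.smul_mul, hF1] at h3
    rw [Matrix.mul_assoc Xᵀ, hF1, Matrix.mul_one] at h3
    exact h3
  have h2 := congrArg Matrix.trace h1
  rw [Matrix.trace_add, Matrix.trace_transpose, Matrix.trace_mul_comm, ← Matrix.mul_assoc, hF2, Matrix.one_mul,
    hX.2, Matrix.trace_smul, Matrix.trace_one, Fintype.card_fin, smul_eq_mul, add_zero] at h2
  have h3 : c = 0 := (mul_eq_zero.1 h2.symm).resolve_right hr0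
  rw [hc, h3, zero_smul]

end skew

/-- a block with simple Lie algebra and a form, by the core statements -/
theorem IsGalU.full_core43 (H : IsHW w Q S P) (G : IsGalU w Q S P Γ) (he : IsBlk P e) (hVW : V * W = 1)
    (hWV : W * V = e)
    (hirr : ∀ U : Submodule ℂ (Fin r → ℂ), (∀ y ∈ cpL W V (LG Γ), ∀ u ∈ U, y *ᵥ u ∈ U) → U = ⊥ ∨ U = ⊤) (h9 : 9 ≤ r)
    (hs : Smp (T0 (cpS W V (LG Γ)))) {x : Matrix n n ℂ} (hx : x ∈ EC P) (hx0 : eᵀ * (toC Q * x) * e ≠ 0)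
    {S1 : Finset ℤ} {R1 : ℤ → Matrix n n ℂ} (hR1 : IsHTw w Q S1 Γ R1)
    (hcore : CoreW (Fin r) w (fun p => (e * R1 p).rank) ∨
      (xᵀ * toC Q = toC Q * x ∧ (toC Q)ᵀ = toC Q ∧ CoreS (Fin r) w (fun p => (e * R1 p).rank))) :
    TyN (cpS W V (LG Γ)) := by
  have hr' : 0 < r := by omega
  obtain ⟨F, Fi, hF, hF1, hF2, hFs, hFL, hFh⟩ := G.exists_form43 H he hVW hWV hirr hr' hx hx0
  obtain ⟨t, _, _, ht, -, -, -⟩ := exists_sh43 G he hVW hWV hr' hR1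
  obtain ⟨E, Λ, k1, k2, k3, -⟩ := exists_shW43 G he hVW hWV hr' hF1 hF2 hR1 (hFh _ _ hR1) ht
  have hfull : ∀ X : Matrix (Fin r) (Fin r) ℂ, Xᵀ * F + F * X = 0 → X ∈ cpS W V (LG Γ) := by
    intro X hX
    have hbr := T0_br G he hVW hWV
    have hirr' := T0_irr hr' hirr
    rcases hcore with hcore | ⟨hxs, hQs, hcore⟩
    · exact (mem_T0.1 (hcore F Fi hFs hF1 hF2 _ hbr hirr' (fun Y hY => T0_skew hr' hF1 hF2 hFL hY) hs _ E Λ
        (Submodule.smul_mem _ _ ht) k1 k2 k3 X hX)).1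
    · have hFs' : Fᵀ = F := by
        rw [hF, Matrix.transpose_mul, Matrix.transpose_mul, Matrix.transpose_transpose, Matrix.transpose_mul, hQs, hxs,
          ← Matrix.mul_assoc]
      exact (mem_T0.1 (hcore F Fi hFs' hF1 hF2 _ hbr hirr' (fun Y hY => T0_skew hr' hF1 hF2 hFL hY) hs _ E Λ
        (Submodule.smul_mem _ _ ht) k1 k2 k3 X hX)).1
  refine ⟨Or.inr ⟨F, hFs, ⟨⟨F, Fi, hF1, hF2⟩, rfl⟩, hfull, hFL⟩, Or.inr ?_⟩
  rw [Fintype.card_fin]
  exact h9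

/-- a shifted element is not zero if the numbers are not in one degree -/
theorem sh_ne43 (G : IsGalU w Q S P Γ) (he : IsBlk P e) (hVW : V * W = 1) (hWV : W * V = e) (hr : 0 < r)
    {S1 : Finset ℤ} {R1 : ℤ → Matrix n n ℂ} (hR1 : IsHTw w Q S1 Γ R1) (hns : ∀ p, (e * R1 p).rank ≠ r) (t : ℝ) :
    V * hR S1 R1 * W - (t : ℂ) • (1 : Matrix (Fin r) (Fin r) ℂ) ≠ 0 := by
  obtain ⟨A, C⟩ := G.exists_CR hR1 he hVW hWV
  have hAA : ∀ p, A p * A p = A p := fun p => by rw [C.mul, if_pos rfl]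
  intro h0
  have h1 : ∀ p : ℤ, A p ≠ 0 → (p : ℝ) = t := by
    intro p hp
    have h2 : ((p : ℂ) - (t : ℂ)) • A p = 0 := by
      have h3 : V * hR S1 R1 * W * A p = (p : ℂ) • A p := by
        rw [C.h, Finset.sum_mul]
        have hpS : p ∈ S1 := by
          by_contra h4
          exact hp (C.supp p h4)
        rw [Finset.sum_eq_single_of_mem p hpS]
        · rw [smul_mul_assoc, hAA]
        · intro q _ hq
          rw [smul_mul_assoc, C.mul, if_neg hq, smul_zero]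
      rw [sub_smul, ← h3]
      have h4 : V * hR S1 R1 * W = (t : ℂ) • (1 : Matrix (Fin r) (Fin r) ℂ) := sub_eq_zero.1 h0
      rw [h4, smul_mul_assoc, one_mul, sub_self]
    have h3 := (smul_eq_zero.1 h2).resolve_right hp
    have h4 : ((p : ℝ) : ℂ) = (t : ℂ) := by
      push_cast
      exact sub_eq_zero.1 h3
    exact_mod_cast h4
  obtain ⟨p0, hAp⟩ : ∃ p0, A p0 ≠ 0 := by
    by_contra hcon
    push Not at hcon
    have h2 := C.sum
    rw [Finset.sum_eq_zero fun p _ => hcon p] at h2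
    have h3 := congrFun (congrFun h2 ⟨0, hr⟩) ⟨0, hr⟩
    rw [Matrix.zero_apply, Matrix.one_apply_eq] at h3
    exact zero_ne_one h3
  apply hns p0
  rw [← C.rank]
  have h2 : A p0 = 1 := by
    rw [← C.sum]
    have hpS : p0 ∈ S1 := by
      by_contra h4
      exact hAp (C.supp p0 h4)
    refine (Finset.sum_eq_single_of_mem p0 hpS fun q _ hq => ?_).symm
    by_contra h2
    apply hq
    have h3 := (h1 q h2).trans (h1 p0 hAp).symm
    exact_mod_cast h3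
  rw [h2, Matrix.rank_one, Fintype.card_fin]

/-- a block with simple Lie algebra without a form, by the core statement -/
theorem IsGalU.full_coreUP43 (H : IsHW w Q S P) (G : IsGalU w Q S P Γ) (he : IsBlk P e) (hVW : V * W = 1)
    (hWV : W * V = e)
    (hirr : ∀ U : Submodule ℂ (Fin r → ℂ), (∀ y ∈ cpL W V (LG Γ), ∀ u ∈ U, y *ᵥ u ∈ U) → U = ⊥ ∨ U = ⊤)
    (hs : Smp (T0 (cpS W V (LG Γ)))) {S1 : Finset ℤ} {R1 : ℤ → Matrix n n ℂ} (hR1 : IsHTw w Q S1 Γ R1)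
    (hns : ∀ p, (e * R1 p).rank ≠ r) (hN : CrUP r (fun p => (e * R1 p).rank)) : TyN (cpS W V (LG Γ)) := by
  classical
  obtain ⟨hI, hAr, h9, hcore⟩ := hN
  have hr' : 0 < r := by omega
  have hr : 2 ≤ r := by omega
  have hr0 : (r : ℂ) ≠ 0 := by exact_mod_cast hr'.ne'
  obtain ⟨t, E, Λ, ht, hSD, hint, hEr⟩ := exists_sh43 G he hVW hWV hr' hR1
  have h0 := sh_ne43 G he hVW hWV hr' hR1 hns t
  have hPr : ¬ AT.Prog (Matrix.toLin' (V * hR S1 R1 * W - (t : ℂ) • (1 : Matrix (Fin r) (Fin r) ℂ))) := by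
    intro hP
    have h3 := hSD.arith14 (a := 1) (b := -t) one_ne_zero (fun μ hμ => by
      obtain ⟨p, hp⟩ := hint μ hμ
      exact ⟨p, by rw [hp]; ring⟩) (by rw [Fintype.card_fin]; exact hr) hP
    rw [Fintype.card_fin] at h3
    apply hAr
    have h4 : (fun p : ℤ => (E (1 * (p : ℝ) + -t)).rank) = fun p => (e * R1 p).rank := by
      funext p
      rw [← hEr]
      congr 2
      ring
    rwa [h4] at h3
  rcases mat_coreUP hr (T0_br G he hVW hWV) (T0_irr hr' hirr) hs ht h0 hSD hPr hcore with hsl | ⟨F, Fi, f1, f2, hF, hm⟩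
  · have h3 : ∀ x : Matrix (Fin r) (Fin r) ℂ, x.trace = 0 → x ∈ cpS W V (LG Γ) := fun x hx => (mem_T0.1 (hsl x hx)).1
    exact ⟨Or.inl h3, Or.inl h3⟩
  · refine ⟨Or.inr ⟨F, hF, ⟨⟨F, Fi, f1, f2⟩, rfl⟩, fun x hx => (mem_T0.1 ((hm x).2 hx)).1, fun y hy => ?_⟩, Or.inr ?_⟩
    · refine ⟨2 * (y.trace / r), ?_⟩
      have e1 := (hm _).1 (T0_dec hr' hy)
      rw [Matrix.transpose_sub, Matrix.transpose_smul, Matrix.transpose_one, Matrix.sub_mul, Matrix.mul_sub,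
        Matrix.smul_mul, Matrix.mul_smul, Matrix.one_mul, Matrix.mul_one] at e1
      rw [mul_smul, two_smul, ← sub_eq_zero, ← e1]
      abel
    · rw [Fintype.card_fin]
      exact h9

/-- `cpS` is the part of trace zero with the scalars -/
theorem T0_sup (hr : 0 < r) : T0 (cpS W V (LG Γ)) ⊔ Submodule.span ℂ {1} = cpS W V (LG Γ) := by
  refine le_antisymm (sup_le inf_le_left ?_) fun y hy => ?_
  · rw [Submodule.span_le, Set.singleton_subset_iff]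
    exact one_cpS
  · rw [Submodule.mem_sup]
    exact ⟨_, T0_dec hr hy, _, Submodule.smul_mem _ _ (Submodule.mem_span_singleton_self _), sub_add_cancel _ _⟩

section dch

variable (H : IsHW w Q S P) (G : IsGalU w Q S P Γ) (he : IsBlk P e) (hVW : V * W = 1) (hWV : W * V = e)
  (hirr : ∀ U : Submodule ℂ (Fin r → ℂ), (∀ y ∈ cpL W V (LG Γ), ∀ u ∈ U, y *ᵥ u ∈ U) → U = ⊥ ∨ U = ⊤)
include G he hVW hWV hirr

/-- the dichotomy from the numbers -/
theorem dch_blkU (hr : 0 < r) {S1 : Finset ℤ} {R1 : ℤ → Matrix n n ℂ} (hR1 : IsHTw w Q S1 Γ R1)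
    (hI : IndecU (fun p => (e * R1 p).rank)) : ∃ t : ℝ,
    V * hR S1 R1 * W - (t : ℂ) • (1 : Matrix (Fin r) (Fin r) ℂ) ∈ T0 (cpS W V (LG Γ)) ∧
    Dch (T0 (cpS W V (LG Γ))) (V * hR S1 R1 * W - (t : ℂ) • (1 : Matrix (Fin r) (Fin r) ℂ)) := by
  have hne : Nonempty (Fin r) := ⟨⟨0, hr⟩⟩
  obtain ⟨t, E, Λ, ht, hSD, hint, hEr⟩ := exists_sh43 G he hVW hWV hr hR1
  refine ⟨t, ht, dch_U43 (T0_br G he hVW hWV) (T0_irr hr hirr) (fun X hX => (mem_T0.1 hX).2) ht hSD t hint ?_⟩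
  simp only [hEr]
  exact hI

include H in
/-- the dichotomy from the numbers of a self-dual block -/
theorem dch_blkW (hr : 0 < r) (hO : SelfB Q P e) {S1 : Finset ℤ} {R1 : ℤ → Matrix n n ℂ} (hR1 : IsHTw w Q S1 Γ R1)
    (hI : NI.Indec w (fun p => (e * R1 p).rank)) : ∃ t : ℝ,
    V * hR S1 R1 * W - (t : ℂ) • (1 : Matrix (Fin r) (Fin r) ℂ) ∈ T0 (cpS W V (LG Γ)) ∧
    Dch (T0 (cpS W V (LG Γ))) (V * hR S1 R1 * W - (t : ℂ) • (1 : Matrix (Fin r) (Fin r) ℂ)) := by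
  have hne : Nonempty (Fin r) := ⟨⟨0, hr⟩⟩
  obtain ⟨x, hx, hx0⟩ := hO
  obtain ⟨F, Fi, hF, hF1, hF2, hFs, hFL, hFh⟩ := G.exists_form43 H he hVW hWV hirr hr hx hx0
  obtain ⟨t, _, _, ht, -, -, -⟩ := exists_sh43 G he hVW hWV hr hR1
  obtain ⟨E, Λ, k1, k2, k3, -⟩ := exists_shW43 G he hVW hWV hr hF1 hF2 hR1 (hFh _ _ hR1) ht
  refine ⟨t, ht, Dch.smul43 (c := 2) two_ne_zero (dch_W43 hFs hF1 hF2 (T0_br G he hVW hWV) (T0_irr hr hirr)
    (fun X hX => (mem_T0.1 hX).2) (fun Y hY => T0_skew hr hF1 hF2 hFL hY) (Submodule.smul_mem _ _ ht) k1 k2 ?_)⟩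
  simp only [k3]
  exact hI

end dch

end MH
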